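import Pool.Agent.N842.SQ.Bmom

/-!
# The joint moments of the normalised power sums
-/

set_option autoImplicit false

namespace Pool.Agent.N842.SQ

open Pool.Agent.N842.ST

open Finset Polynomial
open Pool.Agent.Y57.FD.Mom (normal)

attribute [local instance] exFin

/-- the mean over the polynomials -/
noncomputable def av (E : Type) [Field E] [Fintype E] {D : ℕ} (F : (Fin D → E) → ℝ) : ℝ := (∑ u, F u) / (Fintype.card E : ℝ) ^ D

lemma av_abs (E : Type) [Field E] [Fintype E] {D : ℕ} (F : (Fin D → E) → ℝ) (M : ℝ) (hF : ∀ u, |F u| ≤ M) : |av E F| ≤ M := by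
  have hp0 : (0 : ℝ) < (Fintype.card E : ℝ) := by exact_mod_cast Fintype.card_pos (α := E)
  unfold av
  rw [abs_div, abs_of_pos (by positivity : (0 : ℝ) < (Fintype.card E : ℝ) ^ D), div_le_iff₀ (by positivity)]
  refine (abs_sum_le_sum_abs _ _).trans ((sum_le_sum fun u _ => hF u).trans (le_of_eq ?_))
  rw [sum_const, card_univ, Fintype.card_pi_const, nsmul_eq_mul, show Fintype.card E = Fintype.card E from rfl]
  push_cast
  ring

lemma av_sub (E : Type) [Field E] [Fintype E] {D : ℕ} (F H : (Fin D → E) → ℝ) : av E (fun u => F u - H u) = av E F - av E H := by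
  unfold av
  rw [sum_sub_distrib, sub_div]

/-- **the joint moments of the normalised power sums** -/
theorem amom (l : ℕ) (hl : l.Prime) {n : ℕ} (r : Fin n → ℕ) (D : ℕ) (hD : ∑ j : Fin n, (j + 1 : ℕ) * r j ≤ D) (B : ℝ) (hB : 0 ≤ B)
    (hW : ∀ (E : Type) [Field E] [Fintype E] (u : Fin D → E) (k : ℕ), k ≠ 0 → |S E l k (fp E u)| ≤ B * Real.sqrt (Fintype.card E) ^ k) :
    ∃ C : ℝ, 0 ≤ C ∧ ∀ (E : Type) [Field E] [Fintype E],
      |av E (fun u : Fin D → E => ∏ j : Fin n, (S E l (j + 1) (fp E u) / Real.sqrt (Fintype.card E) ^ ((j : ℕ) + 1)) ^ r j) -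
        ∏ j : Fin n, mu (j + 1) (kap (Fintype.card E) l (j + 1)) (eta (Fintype.card E) l (j + 1)) (r j)| ≤ C / Real.sqrt (Fintype.card E) := by
  classical
  have hl2 : (2 : ℝ) ≤ l := by exact_mod_cast hl.two_le
  -- the constants of the comparison
  have hch : ∀ j : Fin n, ∃ C : ℝ, 0 ≤ C ∧ ∀ (E : Type) [Field E] [Fintype E] (f : (E)[X]), f ≠ 0 → f.natDegree ≤ D →
    (∀ j, j ≠ 0 → |S E l j f| ≤ B * Real.sqrt (Fintype.card E) ^ j) →
      |S E l (j + 1) f - ((j + 1 : ℕ) : ℝ) * G E l (j + 1) f - eta (Fintype.card E) l (j + 1) * Real.sqrt (Fintype.card E) ^ ((j : ℕ) + 1)| ≤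
        C * Real.sqrt (Fintype.card E) ^ ((j : ℕ) + 1 - 1) ∧
      |((j + 1 : ℕ) : ℝ) * G E l (j + 1) f| ≤ C * Real.sqrt (Fintype.card E) ^ ((j : ℕ) + 1) := fun j => geo l D hl B hB (j + 1) (by omega)
  choose C1 hC10 hC1 using hch
  obtain ⟨M, hM⟩ : ∃ M : ℝ, M = 1 + B + l + ∑ j, C1 j := ⟨_, rfl⟩
  have hS0 : 0 ≤ ∑ j, C1 j := sum_nonneg fun j _ => hC10 j
  have hM1 : 1 ≤ M := by rw [hM]; linarith
  have hCM : ∀ j, C1 j + l ≤ M := by
    intro j
    have := single_le_sum (f := C1) (fun j _ => hC10 j) (mem_univ j)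
    rw [hM]
    linarith
  have hBM : B ≤ M := by rw [hM]; linarith
  obtain ⟨R, hR⟩ : ∃ R : ℕ, R = ∑ j, r j := ⟨_, rfl⟩
  have hrR : ∀ j, r j ≤ R := by
    intro j
    rw [hR]
    exact single_le_sum (f := r) (fun j _ => Nat.zero_le _) (mem_univ j)
  -- the constants of the moments of the sums over the closed points
  have hch2 : ∀ i : Fin n → ℕ, ∃ C : ℝ, 0 ≤ C ∧ ((∀ j, i j ≤ r j) → ∀ (E : Type) [Field E] [Fintype E],
      |(∑ u : Fin D → E, ∏ j : Fin n, (((j + 1 : ℕ) : ℝ) * G E l (j + 1) (fp E u) / Real.sqrt (Fintype.card E) ^ ((j : ℕ) + 1)) ^ i j) / (Fintype.card E : ℝ) ^ D -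
        ∏ j : Fin n, m0 (j + 1) (kap (Fintype.card E) l (j + 1)) (i j)| ≤ C / Real.sqrt (Fintype.card E)) := by
    intro i
    by_cases hi : ∀ j, i j ≤ r j
    · obtain ⟨C, hC0, hC⟩ := bmom l hl i D ((sum_le_sum fun j _ => Nat.mul_le_mul_left _ (hi j)).trans hD)
      exact ⟨C, hC0, fun _ => hC⟩
    · exact ⟨0, le_rfl, fun h => absurd h hi⟩
  choose C2 hC20 hC2 using hch2
  obtain ⟨I, hI⟩ : ∃ I : Finset (Fin n → ℕ), I = Fintype.piFinset (fun j => range (r j + 1)) := ⟨_, rfl⟩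
  have hIm : ∀ i, i ∈ I → ∀ j, i j ≤ r j := by
    intro i hi j
    rw [hI, Fintype.mem_piFinset] at hi
    have := hi j
    rw [mem_range] at this
    omega
  refine ⟨(M ^ R) ^ n * ∑ j, M ^ R * (r j * C1 j) + ∑ i ∈ I, (∏ j, ((r j).choose (i j) : ℝ) * (l : ℝ) ^ (r j - i j)) * C2 i, ?_,
    fun E _ _ => ?_⟩
  · refine add_nonneg (mul_nonneg (by positivity) (sum_nonneg fun j _ => ?_)) (sum_nonneg fun i _ => ?_)
    · have := hC10 j
      positivity
    · have := hC20 i
      exact mul_nonneg (prod_nonneg fun j _ => by positivity) this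
  have hs := one_le_s E
  have hs0 : 0 < Real.sqrt (Fintype.card E) := by linarith
  obtain ⟨a, ha⟩ : ∃ a : (Fin D → E) → Fin n → ℝ, a = fun (u : Fin D → E) (j : Fin n) => S E l (j + 1) (fp E u) / Real.sqrt (Fintype.card E) ^ ((j : ℕ) + 1) := ⟨_, rfl⟩
  obtain ⟨b, hb⟩ : ∃ b : (Fin D → E) → Fin n → ℝ, b = fun (u : Fin D → E) (j : Fin n) =>
    ((j + 1 : ℕ) : ℝ) * G E l (j + 1) (fp E u) / Real.sqrt (Fintype.card E) ^ ((j : ℕ) + 1) := ⟨_, rfl⟩
  obtain ⟨η, hη⟩ : ∃ η : Fin n → ℝ, η = fun j : Fin n => eta (Fintype.card E) l (j + 1) := ⟨_, rfl⟩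
  have hη0 : ∀ j, 0 ≤ η j := fun j => by rw [hη]; exact eta_nonneg (Fintype.card E) hl _
  have hηl : ∀ j, η j ≤ l := fun j => by rw [hη]; exact eta_le (Fintype.card E) hl _
  have hgeo := fun (u : Fin D → E) (j : Fin n) => hC1 j E (fp E u) (fp_monic E u).ne_zero (fp_natDegree E u).le (fun k hk => hW E u k hk)
  have hab : ∀ u j, |a u j - (b u j + η j)| ≤ C1 j / Real.sqrt (Fintype.card E) := by
    intro u j
    have h1 := (hgeo u j).1
    have hpos : (0 : ℝ) < Real.sqrt (Fintype.card E) ^ ((j : ℕ) + 1) := by positivity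
    have h2 : a u j - (b u j + η j) = (S E l (j + 1) (fp E u) - ((j + 1 : ℕ) : ℝ) * G E l (j + 1) (fp E u) -
        eta (Fintype.card E) l (j + 1) * Real.sqrt (Fintype.card E) ^ ((j : ℕ) + 1)) / Real.sqrt (Fintype.card E) ^ ((j : ℕ) + 1) := by
      rw [ha, hb, hη]
      field_simp
      ring
    rw [h2, abs_div, abs_of_pos hpos, div_le_div_iff₀ hpos hs0]
    rw [Nat.add_sub_cancel] at h1
    calc |S E l (j + 1) (fp E u) - ((j + 1 : ℕ) : ℝ) * G E l (j + 1) (fp E u) -
        eta (Fintype.card E) l (j + 1) * Real.sqrt (Fintype.card E) ^ ((j : ℕ) + 1)| * Real.sqrt (Fintype.card E) ≤ (C1 j * Real.sqrt (Fintype.card E) ^ (j : ℕ)) * Real.sqrt (Fintype.card E) :=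
          mul_le_mul_of_nonneg_right h1 hs0.le
      _ = _ := by rw [pow_succ]; ring
  have haM : ∀ u j, |a u j| ≤ M := by
    intro u j
    have h1 := hW E u (j + 1) (by omega)
    have hpos : (0 : ℝ) < Real.sqrt (Fintype.card E) ^ ((j : ℕ) + 1) := by positivity
    rw [ha]
    show |S E l (j + 1) (fp E u) / Real.sqrt (Fintype.card E) ^ ((j : ℕ) + 1)| ≤ M
    rw [abs_div, abs_of_pos hpos, div_le_iff₀ hpos]
    exact h1.trans (mul_le_mul_of_nonneg_right hBM hpos.le)
  have hbM : ∀ u j, |b u j + η j| ≤ M := by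
    intro u j
    have h1 := (hgeo u j).2
    have hpos : (0 : ℝ) < Real.sqrt (Fintype.card E) ^ ((j : ℕ) + 1) := by positivity
    have h2 : |b u j| ≤ C1 j := by
      rw [hb]
      show |((j + 1 : ℕ) : ℝ) * G E l (j + 1) (fp E u) / Real.sqrt (Fintype.card E) ^ ((j : ℕ) + 1)| ≤ C1 j
      rw [abs_div, abs_of_pos hpos, div_le_iff₀ hpos]
      exact h1
    refine (abs_add_le _ _).trans ?_
    rw [abs_of_nonneg (hη0 j)]
    have := hCM j
    have := hηl j
    linarith
  have hMR : ∀ j (x : ℝ), |x| ≤ M → |x ^ r j| ≤ M ^ R := by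
    intro j x hx
    rw [abs_pow]
    exact (pow_le_pow_left₀ (abs_nonneg _) hx _).trans (pow_le_pow_right₀ hM1 (hrR j))
  -- the first step
  have h1 : ∀ u, |∏ j, a u j ^ r j - ∏ j, (b u j + η j) ^ r j| ≤ ((M ^ R) ^ n * ∑ j, M ^ R * (r j * C1 j)) / Real.sqrt (Fintype.card E) := by
    intro u
    have e1 := prod_diff univ (fun j => a u j ^ r j) (fun j => (b u j + η j) ^ r j) (M ^ R) (one_le_pow₀ hM1)
      (fun j _ => hMR j _ (haM u j)) (fun j _ => hMR j _ (hbM u j))
    rw [card_univ, Fintype.card_fin] at e1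
    refine e1.trans ?_
    rw [mul_div_assoc, sum_div]
    apply mul_le_mul_of_nonneg_left _ (by positivity)
    refine sum_le_sum fun j _ => ?_
    refine (pow_diff _ _ M (r j) hM1 (haM u j) (hbM u j)).trans ?_
    rw [mul_div_assoc, mul_div_assoc]
    apply mul_le_mul
    · exact pow_le_pow_right₀ hM1 (hrR j)
    · exact mul_le_mul_of_nonneg_left (hab u j) (by positivity)
    · positivity
    · positivity
  -- the second step
  have h2 : av E (fun u : Fin D → E => ∏ j, (b u j + η j) ^ r j) =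
      ∑ i ∈ I, (∏ j, ((r j).choose (i j) : ℝ) * η j ^ (r j - i j)) * av E (fun u : Fin D → E => ∏ j, b u j ^ i j) := by
    have e1 : ∀ u : Fin D → E, ∏ j, (b u j + η j) ^ r j =
        ∑ i ∈ I, (∏ j, ((r j).choose (i j) : ℝ) * η j ^ (r j - i j)) * ∏ j, b u j ^ i j := by
      intro u
      have e2 : ∀ j, (b u j + η j) ^ r j = ∑ i ∈ range (r j + 1), (((r j).choose i : ℝ) * η j ^ (r j - i)) * b u j ^ i := by
        intro j
        rw [add_pow]
        exact sum_congr rfl fun i _ => by ring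
      rw [prod_congr rfl (fun j _ => e2 j), prod_univ_sum (fun j => range (r j + 1))
        (fun j i => (((r j).choose i : ℝ) * η j ^ (r j - i)) * b u j ^ i), ← hI]
      refine sum_congr rfl fun i _ => ?_
      rw [← prod_mul_distrib]
    unfold av
    rw [sum_congr rfl (fun u _ => e1 u), sum_comm, sum_div]
    refine sum_congr rfl fun i _ => ?_
    rw [← mul_sum, mul_div_assoc]
  have h3 : ∏ j : Fin n, mu (j + 1) (kap (Fintype.card E) l (j + 1)) (eta (Fintype.card E) l (j + 1)) (r j) =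
      ∑ i ∈ I, (∏ j, ((r j).choose (i j) : ℝ) * η j ^ (r j - i j)) * ∏ j : Fin n, m0 (j + 1) (kap (Fintype.card E) l (j + 1)) (i j) := by
    unfold mu
    rw [prod_univ_sum (fun j => range (r j + 1)) (fun (j : Fin n) i => ((r j).choose i : ℝ) * eta (Fintype.card E) l (j + 1) ^ (r j - i) *
      m0 (j + 1) (kap (Fintype.card E) l (j + 1)) i), ← hI]
    refine sum_congr rfl fun i _ => ?_
    rw [← prod_mul_distrib, hη]
  have h4 : |av E (fun u : Fin D → E => ∏ j, (b u j + η j) ^ r j) -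
      ∏ j : Fin n, mu (j + 1) (kap (Fintype.card E) l (j + 1)) (eta (Fintype.card E) l (j + 1)) (r j)| ≤
      (∑ i ∈ I, (∏ j, ((r j).choose (i j) : ℝ) * (l : ℝ) ^ (r j - i j)) * C2 i) / Real.sqrt (Fintype.card E) := by
    rw [h2, h3, ← sum_sub_distrib, sum_div]
    refine (abs_sum_le_sum_abs _ _).trans (sum_le_sum fun i hi => ?_)
    rw [← mul_sub, abs_mul, mul_div_assoc]
    apply mul_le_mul
    · rw [abs_prod]
      apply prod_le_prod (fun j _ => abs_nonneg _)
      intro j _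
      rw [abs_of_nonneg (mul_nonneg (by positivity) (pow_nonneg (hη0 j) _))]
      apply mul_le_mul_of_nonneg_left _ (by positivity)
      exact pow_le_pow_left₀ (hη0 j) (hηl j) _
    · have e1 := hC2 i (hIm i hi) E
      unfold av
      rw [hb]
      exact e1
    · exact abs_nonneg _
    · exact prod_nonneg fun j _ => by positivity
  have h5 : av E (fun u : Fin D → E => ∏ j : Fin n, (S E l (j + 1) (fp E u) / Real.sqrt (Fintype.card E) ^ ((j : ℕ) + 1)) ^ r j) =
      av E (fun u : Fin D → E => ∏ j, a u j ^ r j - ∏ j, (b u j + η j) ^ r j) +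
      av E (fun u : Fin D → E => ∏ j, (b u j + η j) ^ r j) := by
    rw [av_sub, sub_add_cancel, ha]
  have h6 := av_abs E (fun u : Fin D → E => ∏ j, a u j ^ r j - ∏ j, (b u j + η j) ^ r j) _ h1
  rw [h5, add_sub_assoc, add_div]
  exact (abs_add_le _ _).trans (add_le_add h6 h4)

end Pool.Agent.N842.SQ
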