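import Pool.Agent.N842.SQ.Ind

/-!
# The joint moments of the normalised sums over the closed points
-/

set_option autoImplicit false

namespace Pool.Agent.N842.SQ

open Pool.Agent.N842.ST

open Finset Polynomial
open Pool.Agent.Y57.FD.Mom (normal)

attribute [local instance] exFin

lemma eg_one (E : Type) [Field E] [Fintype E] (l k : ℕ) : eg (Ex E k) (nu l) 1 = 0 := by
  unfold eg
  simp only [pow_one]
  rw [sum_nu, zero_div]

lemma eg_two (E : Type) [Field E] [Fintype E] (l : ℕ) (hl : l.Prime) (k : ℕ) (hk : k ≠ 0) :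
    eg (Ex E k) (nu l) 2 = kap (Fintype.card E) l k * (1 - 1 / (Fintype.card E : ℝ) ^ k) := by
  classical
  have hpk : (0 : ℝ) < (Fintype.card E : ℝ) ^ k := by
    have := Fintype.card_pos (α := E)
    positivity
  unfold eg kap
  by_cases h : l ∣ Fintype.card E ^ k - 1
  · rw [if_pos h]
    have h1 : ∀ z : Ex E k, nu l z ^ 2 = ((l : ℝ) - 2) * nu l z + ((l : ℝ) - 1) * (1 - if z = 0 then 1 else 0) := by
      intro z
      by_cases hz : z = 0
      · rw [hz, nu_zero hl.ne_zero, if_pos rfl]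
        ring
      · rw [if_neg hz]
        rcases nu_of_dvd (l := l) hl (by rw [card_ex E k hk]; exact h) z hz with ⟨_, h1⟩ | ⟨_, h1⟩
        · rw [h1]
          ring
        · rw [h1]
          ring
    rw [sum_congr rfl (fun z _ => h1 z), sum_add_distrib, ← mul_sum, ← mul_sum, sum_nu, sum_sub_distrib,
      sum_ite_eq' univ (0 : Ex E k) (fun _ => (1 : ℝ)), if_pos (mem_univ _), sum_const, card_univ, nsmul_eq_mul, mul_one,
      card_ex E k hk]
    push_cast
    field_simp
    ring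
  · rw [if_neg h]
    have h1 : ∀ z : Ex E k, nu l z ^ 2 = 0 := by
      intro z
      rw [cop_of E hl k hk h z]
      norm_num
    rw [sum_congr rfl (fun z _ => h1 z)]
    simp

lemma eg_le (E : Type) [Field E] [Fintype E] (l : ℕ) (hl : l.Prime) (k j : ℕ) : |eg (Ex E k) (nu l) j| ≤ (l : ℝ) ^ j := by
  have hq : (0 : ℝ) < Fintype.card (Ex E k) := by exact_mod_cast Fintype.card_pos
  unfold eg
  rw [abs_div, abs_of_pos hq, div_le_iff₀ hq]
  refine (abs_sum_le_sum_abs _ _).trans ((sum_le_sum (g := fun _ => (l : ℝ) ^ j) fun c _ => ?_).trans (le_of_eq ?_))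
  · rw [abs_pow]
    exact pow_le_pow_left₀ (abs_nonneg _) (abs_nu_le hl c) j
  · rw [sum_const, card_univ, nsmul_eq_mul, mul_comm]

/-- the moments of the sum over the closed points -/
theorem Mg_growth (l : ℕ) (hl : l.Prime) (m : ℕ) : ∃ C : ℝ, 0 ≤ C ∧ ∀ (E : Type) [Field E] [Fintype E] (k : ℕ), k ≠ 0 →
    |Mg (Ex E k) (nu l) m (Irr E k).card - mn m (kap (Fintype.card E) l k) (Irr E k).card| ≤
      C * ((Real.sqrt (Fintype.card E) ^ k) ^ m / Real.sqrt (Fintype.card E) ^ k) := by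
  obtain ⟨C, hC0, hC⟩ := grow l (by exact_mod_cast hl.one_lt.le) m
  refine ⟨C, hC0, fun E _ _ k hk => ?_⟩
  have hs : 1 ≤ Real.sqrt (Fintype.card E) ^ k := one_le_pow₀ (one_le_s E)
  have hsq : (Real.sqrt (Fintype.card E) ^ k) ^ 2 = (Fintype.card E : ℝ) ^ k := by
    rw [← pow_mul, mul_comm, ← s_pow]
  refine hC (Real.sqrt (Fintype.card E) ^ k) hs (kap (Fintype.card E) l k) (kap_nonneg (Fintype.card E) hl k) (kap_le (Fintype.card E) hl k) (Mg (Ex E k) (nu l))
    (eg (Ex E k) (nu l)) (Mg_zero _ _) (Mg_N_zero _ _) (Mg_succ _ _) (eg_zero _ _) (eg_one E l k) ?_ (eg_le E l hl k) _ ?_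
  · rw [hsq]
    exact eg_two E l hl k hk
  · rw [hsq]
    exact_mod_cast card_Irr_le' E k hk

theorem fac (l : ℕ) (hl : l.Prime) (k : ℕ) (hk : k ≠ 0) (m : ℕ) : ∃ C : ℝ, 0 ≤ C ∧ ∀ (E : Type) [Field E] [Fintype E],
    |((k : ℝ) / Real.sqrt (Fintype.card E) ^ k) ^ m * Mg (Ex E k) (nu l) m (Irr E k).card - m0 k (kap (Fintype.card E) l k) m| ≤ C / Real.sqrt (Fintype.card E) := by
  obtain ⟨C, hC0, hC⟩ := Mg_growth l hl m
  have hl2 : (2 : ℝ) ≤ l := by exact_mod_cast hl.two_le
  have hm0 : 0 ≤ m0 k l m := m0_nonneg k l (by linarith) m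
  refine ⟨(k : ℝ) ^ m * C + m0 k l m * (m * k), by positivity, fun E _ _ => ?_⟩
  have hs := one_le_s E
  have hs0 : 0 < Real.sqrt (Fintype.card E) := by linarith
  have hκ0 := kap_nonneg (Fintype.card E) hl k
  have hκ := kap_le (Fintype.card E) hl k
  have hsk : Real.sqrt (Fintype.card E) ≤ Real.sqrt (Fintype.card E) ^ k := le_self_pow₀ hs hk
  have hsq : (Real.sqrt (Fintype.card E) ^ k) ^ 2 = (Fintype.card E : ℝ) ^ k := by
    rw [← pow_mul, mul_comm, ← s_pow]
  obtain ⟨t, ht⟩ : ∃ t : ℝ, t = Real.sqrt (Fintype.card E) ^ k := ⟨_, rfl⟩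
  have h1 := hC E k hk
  rw [← ht] at h1 hsk hsq ⊢
  have ht0 : 0 < t := by linarith
  obtain ⟨N, hN⟩ : ∃ N : ℝ, N = ((Irr E k).card : ℝ) := ⟨_, rfl⟩
  have hN0 : 0 ≤ N := by rw [hN]; positivity
  have hNle := card_Irr_le E k hk
  have hNerr := card_Irr_err E k hk
  rw [← hN] at h1 hNle hNerr
  rw [← ht] at hNerr
  -- the first difference
  have h2 : |((k : ℝ) / t) ^ m * Mg (Ex E k) (nu l) m (Irr E k).card - ((k : ℝ) / t) ^ m * mn m (kap (Fintype.card E) l k) N| ≤
      (k : ℝ) ^ m * C / Real.sqrt (Fintype.card E) := by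
    rw [← mul_sub, abs_mul, abs_of_nonneg (by positivity : 0 ≤ ((k : ℝ) / t) ^ m), div_pow]
    calc (k : ℝ) ^ m / t ^ m * |Mg (Ex E k) (nu l) m (Irr E k).card - mn m (kap (Fintype.card E) l k) N| ≤
        (k : ℝ) ^ m / t ^ m * (C * (t ^ m / t)) := mul_le_mul_of_nonneg_left h1 (by positivity)
      _ = (k : ℝ) ^ m * C / t := by field_simp
      _ ≤ (k : ℝ) ^ m * C / Real.sqrt (Fintype.card E) := div_le_div_of_nonneg_left (by positivity) hs0 hsk
  -- the second difference
  have h3 : |((k : ℝ) / t) ^ m * mn m (kap (Fintype.card E) l k) N - m0 k (kap (Fintype.card E) l k) m| ≤ m0 k l m * (m * k) / Real.sqrt (Fintype.card E) := by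
    rcases Nat.even_or_odd m with hm | hm
    · obtain ⟨i, hi⟩ := hm
      have hi2 : m / 2 = i := by omega
      have hpk : (0 : ℝ) < (Fintype.card E : ℝ) ^ k := by
        have := Fintype.card_pos (α := E)
        positivity
      obtain ⟨x, hx⟩ : ∃ x : ℝ, x = (k : ℝ) * N / (Fintype.card E : ℝ) ^ k := ⟨_, rfl⟩
      have hx0 : 0 ≤ x := by rw [hx]; positivity
      have hx1 : x ≤ 1 := by
        rw [hx, div_le_one hpk]
        exact hNle
      have hx2 : 1 - x ≤ k / Real.sqrt (Fintype.card E) := by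
        have e1 : 1 - x = -((k : ℝ) * N - (Fintype.card E : ℝ) ^ k) / (Fintype.card E : ℝ) ^ k := by
          rw [hx]
          field_simp
          ring
        have e2 : -((k : ℝ) * N - (Fintype.card E : ℝ) ^ k) ≤ k * t := (neg_le_abs _).trans hNerr
        rw [e1, div_le_div_iff₀ hpk hs0, ← hsq]
        rw [← hsq] at e2
        calc -((k : ℝ) * N - t ^ 2) * Real.sqrt (Fintype.card E) ≤ (k * t) * Real.sqrt (Fintype.card E) := mul_le_mul_of_nonneg_right e2 hs0.le
          _ ≤ (k * t) * t := mul_le_mul_of_nonneg_left hsk (by positivity)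
          _ = k * t ^ 2 := by ring
      have h4 : ((k : ℝ) / t) ^ m * mn m (kap (Fintype.card E) l k) N - m0 k (kap (Fintype.card E) l k) m = - (m0 k (kap (Fintype.card E) l k) m * (1 - x ^ i)) := by
        unfold mn m0
        rw [hi2, hx, ← hsq]
        have e3 : ((k : ℝ) / t) ^ m = ((k : ℝ) / t) ^ i * ((k : ℝ) / t) ^ i := by rw [← pow_add, ← hi]
        rw [e3]
        have e4 : ((k : ℝ) / t) ^ i * ((k : ℝ) / t) ^ i * (normal m * (kap (Fintype.card E) l k * N) ^ i) =
            normal m * (k * kap (Fintype.card E) l k) ^ i * (k * N / t ^ 2) ^ i := by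
          have e5 : ((k : ℝ) / t) ^ i * ((k : ℝ) / t) ^ i * (kap (Fintype.card E) l k * N) ^ i = (k * kap (Fintype.card E) l k) ^ i * (k * N / t ^ 2) ^ i := by
            rw [← mul_pow, ← mul_pow, ← mul_pow]
            congr 1
            field_simp
          linear_combination (normal m) * e5
        rw [e4]
        ring
      have h5 : 1 - x ^ i ≤ i * (1 - x) := by
        have e5 := one_add_mul_le_pow (a := x - 1) (by linarith) i
        rw [add_sub_cancel] at e5
        linarith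
      have h6 : 0 ≤ 1 - x ^ i := by
        have := pow_le_one₀ hx0 hx1 (n := i)
        linarith
      have hm1 := m0_nonneg k (kap (Fintype.card E) l k) hκ0 m
      have hm2 := m0_le k (kap (Fintype.card E) l k) l hκ0 hκ m
      rw [h4, abs_neg, abs_of_nonneg (by positivity)]
      calc m0 k (kap (Fintype.card E) l k) m * (1 - x ^ i) ≤ m0 k l m * (m * (k / Real.sqrt (Fintype.card E))) := by
            apply mul_le_mul hm2 _ h6 hm0
            refine h5.trans ?_
            apply mul_le_mul _ hx2 (by linarith) (by positivity)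
            exact_mod_cast (by omega : i ≤ m)
        _ = _ := by ring
    · have e1 : normal m = 0 := by
        unfold Pool.Agent.Y57.FD.Mom.normal
        rw [if_neg (Nat.not_even_iff_odd.2 hm)]
      unfold mn m0
      rw [e1]
      simp
  have h7 : ((k : ℝ) ^ m * C + m0 k l m * (m * k)) / Real.sqrt (Fintype.card E) = (k : ℝ) ^ m * C / Real.sqrt (Fintype.card E) + m0 k l m * (m * k) / Real.sqrt (Fintype.card E) := by
    ring
  rw [h7]
  have h8 := abs_add_le (((k : ℝ) / t) ^ m * Mg (Ex E k) (nu l) m (Irr E k).card - ((k : ℝ) / t) ^ m * mn m (kap (Fintype.card E) l k) N)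
    (((k : ℝ) / t) ^ m * mn m (kap (Fintype.card E) l k) N - m0 k (kap (Fintype.card E) l k) m)
  rw [sub_add_sub_cancel] at h8
  linarith

/-- **the joint moments of the normalised sums over the closed points** -/
theorem bmom (l : ℕ) (hl : l.Prime) {n : ℕ} (r : Fin n → ℕ) (D : ℕ) (hD : ∑ j : Fin n, (j + 1 : ℕ) * r j ≤ D) :
    ∃ C : ℝ, 0 ≤ C ∧ ∀ (E : Type) [Field E] [Fintype E],
      |(∑ u : Fin D → E, ∏ j : Fin n, (((j + 1 : ℕ) : ℝ) * G E l (j + 1) (fp E u) / Real.sqrt (Fintype.card E) ^ ((j : ℕ) + 1)) ^ r j) / (Fintype.card E : ℝ) ^ D -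
        ∏ j : Fin n, m0 (j + 1) (kap (Fintype.card E) l (j + 1)) (r j)| ≤ C / Real.sqrt (Fintype.card E) := by
  have hch : ∀ j : Fin n, ∃ C : ℝ, 0 ≤ C ∧ ∀ (E : Type) [Field E] [Fintype E],
    |(((j + 1 : ℕ) : ℝ) / Real.sqrt (Fintype.card E) ^ ((j : ℕ) + 1)) ^ r j * Mg (Ex E (j + 1)) (nu l) (r j) (Irr E (j + 1)).card -
      m0 (j + 1) (kap (Fintype.card E) l (j + 1)) (r j)| ≤ C / Real.sqrt (Fintype.card E) := fun j => fac l hl (j + 1) (by omega) (r j)
  choose C hC0 hC using hch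
  have hl2 : (2 : ℝ) ≤ l := by exact_mod_cast hl.two_le
  obtain ⟨M, hM⟩ : ∃ M : ℝ, M = 1 + ∑ j : Fin n, (m0 (j + 1) l (r j) + C j) := ⟨_, rfl⟩
  have hpos : ∀ j : Fin n, 0 ≤ m0 (j + 1) l (r j) + C j := by
    intro j
    have h1 := m0_nonneg (j + 1) l (by linarith) (r j)
    have h2 := hC0 j
    linarith
  have hM1 : 1 ≤ M := by
    rw [hM]
    have := sum_nonneg (fun j (_ : j ∈ (univ : Finset (Fin n))) => hpos j)
    linarith
  refine ⟨M ^ n * ∑ j : Fin n, C j, mul_nonneg (by positivity) (sum_nonneg fun j _ => hC0 j), fun E _ _ => ?_⟩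
  have hs := one_le_s E
  have hs0 : 0 < Real.sqrt (Fintype.card E) := by linarith
  have h1 : (∑ u : Fin D → E, ∏ j : Fin n, (((j + 1 : ℕ) : ℝ) * G E l (j + 1) (fp E u) / Real.sqrt (Fintype.card E) ^ ((j : ℕ) + 1)) ^ r j) / (Fintype.card E : ℝ) ^ D =
      ∏ j : Fin n, ((((j + 1 : ℕ) : ℝ) / Real.sqrt (Fintype.card E) ^ ((j : ℕ) + 1)) ^ r j * Mg (Ex E (j + 1)) (nu l) (r j) (Irr E (j + 1)).card) := by
    rw [prod_mul_distrib, ← joint E l r hD, mul_div_assoc', mul_sum]
    congr 1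
    refine sum_congr rfl fun u _ => ?_
    rw [← prod_mul_distrib]
    refine prod_congr rfl fun j _ => ?_
    rw [← mul_pow]
    congr 1
    ring
  rw [h1]
  have h2 : ∀ j : Fin n, |m0 (j + 1) (kap (Fintype.card E) l (j + 1)) (r j)| ≤ m0 (j + 1) l (r j) := by
    intro j
    rw [abs_of_nonneg (m0_nonneg _ _ (kap_nonneg (Fintype.card E) hl _) _)]
    exact m0_le _ _ _ (kap_nonneg (Fintype.card E) hl _) (kap_le (Fintype.card E) hl _) _
  have h3 : ∀ j : Fin n, m0 (j + 1) l (r j) + C j ≤ M := by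
    intro j
    rw [hM]
    have := single_le_sum (f := fun j : Fin n => m0 (j + 1) l (r j) + C j) (fun j _ => hpos j) (mem_univ j)
    linarith
  have h4 := prod_diff univ (fun j : Fin n => (((j + 1 : ℕ) : ℝ) / Real.sqrt (Fintype.card E) ^ ((j : ℕ) + 1)) ^ r j *
    Mg (Ex E (j + 1)) (nu l) (r j) (Irr E (j + 1)).card) (fun j : Fin n => m0 (j + 1) (kap (Fintype.card E) l (j + 1)) (r j)) M hM1 (by
      intro j _
      have e1 := hC j E
      have e2 : C j / Real.sqrt (Fintype.card E) ≤ C j := div_le_self (hC0 j) hs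
      have e3 := abs_add_le ((((j + 1 : ℕ) : ℝ) / Real.sqrt (Fintype.card E) ^ ((j : ℕ) + 1)) ^ r j *
        Mg (Ex E (j + 1)) (nu l) (r j) (Irr E (j + 1)).card - m0 (j + 1) (kap (Fintype.card E) l (j + 1)) (r j))
        (m0 (j + 1) (kap (Fintype.card E) l (j + 1)) (r j))
      rw [sub_add_cancel] at e3
      have e4 := h2 j
      have e5 := h3 j
      linarith) (by
      intro j _
      have e4 := h2 j
      have e5 := h3 j
      have e6 := hC0 j
      show |m0 (j + 1) (kap (Fintype.card E) l (j + 1)) (r j)| ≤ M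
      linarith)
  refine h4.trans ?_
  rw [card_univ, Fintype.card_fin, mul_div_assoc, sum_div]
  apply mul_le_mul_of_nonneg_left _ (by positivity)
  exact sum_le_sum fun j _ => hC j E

end Pool.Agent.N842.SQ
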