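import Pool.Agent.N842.ST.Geo

/-!
# Extensions of finite fields
-/

set_option autoImplicit false

namespace Pool.Agent.N842.SQ

open Finset Polynomial

/-- the extension of degree `k` of the finite field `E` -/
def Ex (E : Type) [Field E] (k : ℕ) : Type := SplittingField (X ^ (Nat.card E ^ k) - X : E[X])

noncomputable instance (E : Type) [Field E] (k : ℕ) : Field (Ex E k) :=
  inferInstanceAs (Field (SplittingField (X ^ (Nat.card E ^ k) - X : E[X])))

noncomputable instance (E : Type) [Field E] (k : ℕ) : Algebra E (Ex E k) :=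
  inferInstanceAs (Algebra E (SplittingField (X ^ (Nat.card E ^ k) - X : E[X])))

instance (E : Type) [Field E] (k : ℕ) : Module.Finite E (Ex E k) :=
  inferInstanceAs (Module.Finite E (SplittingField (X ^ (Nat.card E ^ k) - X : E[X])))

instance (E : Type) [Field E] (k : ℕ) : IsSplittingField E (Ex E k) (X ^ (Nat.card E ^ k) - X : E[X]) :=
  inferInstanceAs (IsSplittingField E (SplittingField (X ^ (Nat.card E ^ k) - X : E[X])) _)

instance (E : Type) [Field E] [Finite E] (k : ℕ) : Finite (Ex E k) := Module.finite_of_finite E

/-- the finite type structure of the extensions -/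
@[reducible] noncomputable def exFin (E : Type) [Field E] [Finite E] (k : ℕ) : Fintype (Ex E k) := Fintype.ofFinite _

attribute [local instance] exFin

variable (E : Type) [Field E]

lemma finrank_ex [Finite E] {k : ℕ} (hk : k ≠ 0) : Module.finrank E (Ex E k) = k := by
  obtain ⟨p, hp⟩ := CharP.exists E
  have : Fact (Nat.Prime p) := ⟨CharP.char_is_prime E p⟩
  have : NeZero k := ⟨hk⟩
  have e : Ex E k ≃ₐ[E] FiniteField.Extension E p k :=
    (IsSplittingField.algEquiv (Ex E k) (X ^ (Nat.card E ^ k) - X : E[X])).trans
      (IsSplittingField.algEquiv (FiniteField.Extension E p k) (X ^ (Nat.card E ^ k) - X : E[X])).symm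
  rw [e.toLinearEquiv.finrank_eq, FiniteField.finrank_extension E p k]

lemma card_ex [Fintype E] (k : ℕ) (hk : k ≠ 0) : Fintype.card (Ex E k) = Fintype.card E ^ k := by
  rw [Module.card_eq_pow_finrank (K := E), finrank_ex E hk]

/-- two extensions of the same degree are isomorphic -/
lemma ex_equiv [Finite E] (k : ℕ) (hk : k ≠ 0) (L : Type) [Field L] [Algebra E L] [Finite L] (h : Module.finrank E L = k) :
    Nonempty (Ex E k ≃ₐ[E] L) := by
  have : Module.Finite E L := Module.finite_of_finrank_pos (by omega)
  obtain ⟨f⟩ : Nonempty (Ex E k →ₐ[E] L) := by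
    apply FiniteField.nonempty_algHom_of_finrank_dvd
    rw [finrank_ex E hk, h]
  refine ⟨AlgEquiv.ofBijective f ⟨f.injective, ?_⟩⟩
  have h1 : Function.Injective f.toLinearMap := f.injective
  exact (LinearMap.injective_iff_surjective_of_finrank_eq_finrank (by rw [finrank_ex E hk, h])).1 h1

end Pool.Agent.N842.SQ
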