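import Pool.Agent.N842.SQ.Sep

/-!
# Homomorphisms of finite fields
-/

set_option autoImplicit false

namespace Pool.Agent.N842.SQ

open Pool.Agent.N842.ST
open Finset Polynomial

attribute [local instance] exFin

/-- the degree over the prime field -/
noncomputable def dg (p : ℕ) (E : Type) [Fintype E] : ℕ := Nat.log p (Fintype.card E)

section
variable (p : ℕ) [hp : Fact p.Prime] (E : Type) [Field E] [Fintype E] [CharP E p]

lemma card_dg : Fintype.card E = p ^ dg p E ∧ 1 ≤ dg p E := by
  obtain ⟨n, _, hn⟩ := FiniteField.card E p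
  have h1 : dg p E = n := by
    unfold dg
    rw [hn, Nat.log_pow hp.out.one_lt]
  rw [h1]
  exact ⟨hn, n.2⟩

lemma finrank_dg [Algebra (ZMod p) E] : Module.finrank (ZMod p) E = dg p E := by
  have h := Module.card_eq_pow_finrank (K := ZMod p) (V := E)
  rw [ZMod.card, (card_dg p E).1] at h
  exact (Nat.pow_right_injective hp.out.two_le h).symm

/-- ring homomorphisms and homomorphisms of algebras over the prime field -/
def homEquiv (L : Type) [Field L] [Algebra (ZMod p) E] [Algebra (ZMod p) L] : (E →+* L) ≃ (E →ₐ[ZMod p] L) where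
  toFun ψ := AlgHom.mk ψ fun r => RingHom.congr_fun (Subsingleton.elim (ψ.comp (algebraMap (ZMod p) E)) (algebraMap (ZMod p) L)) r
  invFun ψ := ψ
  left_inv _ := rfl
  right_inv _ := rfl

lemma hom_count (L : Type) [Field L] [Fintype L] [CharP L p] : Nat.card (E →+* L) = if dg p E ∣ dg p L then dg p E else 0 := by
  let _ : Algebra (ZMod p) E := ZMod.algebra E p
  let _ : Algebra (ZMod p) L := ZMod.algebra L p
  rw [Nat.card_congr (homEquiv p E L)]
  split_ifs with h
  · rw [FiniteField.natCard_algHom_of_finrank_dvd (by rw [finrank_dg p E, finrank_dg p L]; exact h), finrank_dg p E]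
  · have h1 : IsEmpty (E →ₐ[ZMod p] L) := by
      rw [← not_nonempty_iff, FiniteField.nonempty_algHom_iff_finrank_dvd, finrank_dg p E, finrank_dg p L]
      exact h
    exact Nat.card_of_isEmpty

end

lemma nu_equiv (l : ℕ) {L L' : Type} [Field L] [Field L'] (e : L ≃+* L') (z : L) : nu l (e z) = nu l z := by
  unfold nu
  congr 2
  symm
  refine Nat.card_congr (e.toEquiv.subtypeEquiv fun w => ?_)
  show w ^ l = z ↔ (e w) ^ l = e z
  rw [← map_pow, e.injective.eq_iff]

/-- the sums over all extensions of the same degree are equal -/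
lemma S_any (E : Type) [Field E] [Fintype E] (l j : ℕ) (hj : j ≠ 0) (L : Type) [Field L] [Fintype L] [Algebra E L] (h : Module.finrank E L = j)
    (f : E[X]) : ∑ y : L, nu l (aeval y f) = S E l j f := by
  obtain ⟨e⟩ := ex_equiv E j hj L h
  unfold S
  symm
  refine Fintype.sum_equiv e.toEquiv _ _ fun y => ?_
  show nu l (aeval y f) = nu l (aeval (e y) f)
  have h1 : aeval (e y) f = e (aeval y f) := by
    rw [← AlgEquiv.coe_toAlgHom, aeval_algHom_apply]
  rw [h1]
  exact (nu_equiv l e.toRingEquiv _).symm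

/-- the number of the solutions -/
noncomputable def points (L : Type) [Field L] (l : ℕ) {D : ℕ} (u : Fin D → L) : ℕ :=
  Nat.card {P : L × L // P.2 ^ l = P.1 ^ D + ∑ i, u i * P.1 ^ (i : ℕ)}

/-- smoothness -/
def Smooth (L : Type) [Field L] (l : ℕ) {D : ℕ} (u : Fin D → L) : Prop :=
  (l : L) ≠ 0 ∧ (X ^ D + ∑ i, C (u i) * X ^ (i : ℕ) : L[X]).Separable

lemma points_eq (L : Type) [Field L] [Fintype L] (l : ℕ) {D : ℕ} (u : Fin D → L) :
    (points L l u : ℝ) = Fintype.card L + ∑ x : L, nu l (x ^ D + ∑ i, u i * x ^ (i : ℕ)) := by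
  classical
  have h1 : points L l u = ∑ x : L, Nat.card {y : L // y ^ l = x ^ D + ∑ i, u i * x ^ (i : ℕ)} := by
    unfold points
    rw [← Nat.card_sigma]
    refine Nat.card_congr ⟨fun P => ⟨P.1.1, ⟨P.1.2, P.2⟩⟩, fun P => ⟨(P.1, P.2.1), P.2.2⟩, fun _ => rfl, fun _ => rfl⟩
  rw [h1]
  push_cast
  have h3 : ∀ x : L, ((Nat.card {y : L // y ^ l = x ^ D + ∑ i, u i * x ^ (i : ℕ)} : ℕ) : ℝ) = nu l (x ^ D + ∑ i, u i * x ^ (i : ℕ)) + 1 := by
    intro x
    unfold nu
    ring
  rw [sum_congr rfl (fun x _ => h3 x), sum_add_distrib, sum_const, card_univ, nsmul_eq_mul, mul_one]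
  ring

lemma fp_map {E L : Type} [Field E] [Field L] (ψ : E →+* L) {D : ℕ} (u : Fin D → E) :
    (fp E u).map ψ = X ^ D + ∑ i, C (ψ (u i)) * X ^ (i : ℕ) := by
  unfold fp low
  simp [Polynomial.map_sum]

open Classical in
/-- the value of a curve over an extension -/
noncomputable def val (L : Type) [Field L] (l : ℕ) {D : ℕ} (u : Fin D → L) : ℝ :=
  if Smooth L l u then ((Nat.card L : ℝ) - points L l u) / Real.sqrt (Nat.card L) else 0

/-- the values over the extensions -/
lemma val_hom (p : ℕ) [hp : Fact p.Prime] (E : Type) [Field E] [Fintype E] [CharP E p] (L : Type) [Field L] [Fintype L] [CharP L p] (ψ : E →+* L)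
    (l : ℕ) {D : ℕ} (u : Fin D → E) : val L l (fun i => ψ (u i)) = - A l D (dg p L / dg p E) E u := by
  classical
  let _ : Algebra E L := ψ.toAlgebra
  have hψ : algebraMap E L = ψ := rfl
  obtain ⟨hcE, h1E⟩ := card_dg p E
  obtain ⟨hcL, h1L⟩ := card_dg p L
  have hr := Module.card_eq_pow_finrank (K := E) (V := L)
  rw [hcE, hcL, ← pow_mul] at hr
  have hr2 := Nat.pow_right_injective hp.out.two_le hr
  have hj : dg p L / dg p E = Module.finrank E L := by
    rw [hr2]
    exact Nat.mul_div_cancel_left _ (by omega)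
  have hj0 : Module.finrank E L ≠ 0 := by
    intro h0
    rw [h0, mul_zero] at hr2
    omega
  have hsm : Smooth L l (fun i => ψ (u i)) ↔ ((l : E) ≠ 0 ∧ (fp E u).Separable) := by
    unfold Smooth
    rw [← fp_map ψ u, Polynomial.separable_map, ← map_natCast ψ l, Ne, map_eq_zero ψ]
  unfold val A
  by_cases h : (l : E) ≠ 0 ∧ (fp E u).Separable
  · rw [if_pos h, if_pos (hsm.2 h), points_eq, hj, ← S_any E l _ hj0 L rfl (fp E u), Nat.card_eq_fintype_card]
    have h1 : ∀ y : L, aeval y (fp E u) = y ^ D + ∑ i, ψ (u i) * y ^ (i : ℕ) := by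
      intro y
      rw [aeval_def, ← eval_map, hψ, fp_map]
      simp [eval_finsetSum]
    simp only [h1]
    have h2 : Real.sqrt (Fintype.card L) = Real.sqrt (Fintype.card E) ^ Module.finrank E L := by
      rw [hcL, hcE, hr2, pow_mul]
      push_cast
      rw [Real.sqrt_eq_iff_mul_self_eq (by positivity) (by positivity), ← pow_add, ← two_mul, pow_mul, Real.sq_sqrt (by positivity)]
    rw [h2]
    ring
  · rw [if_neg h, if_neg (fun h' => h (hsm.1 h')), neg_zero]

end Pool.Agent.N842.SQ
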