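import Pool.Agent.N842.SQ.Geo
import Pool.Agent.N842.ST.Sep

/-!
# The independence of the values of a random monic polynomial at the closed points
-/

set_option autoImplicit false

namespace Pool.Agent.N842.SQ

open Pool.Agent.N842.ST

open Finset Polynomial

attribute [local instance] exFin

section
variable (E : Type) [Field E] [Fintype E]

/-- the polynomial with the coefficients `u` -/
noncomputable def low {D : ℕ} (u : Fin D → E) : (E)[X] := ∑ i, C (u i) * X ^ (i : ℕ)

/-- the monic polynomial with the coefficients `u` -/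
noncomputable def fp {D : ℕ} (u : Fin D → E) : (E)[X] := X ^ D + low E u

omit [Fintype E] in
lemma fp_monic {D : ℕ} (u : Fin D → E) : (fp E u).Monic := monic_X_pow_add (degree_sum_fin_lt u)

omit [Fintype E] in
lemma fp_natDegree {D : ℕ} (u : Fin D → E) : (fp E u).natDegree = D := by
  apply natDegree_eq_of_degree_eq_some
  unfold fp low
  rw [degree_add_eq_left_of_degree_lt, degree_X_pow]
  rw [degree_X_pow]
  exact degree_sum_fin_lt u

/-- the values at the closed points in `s` -/
noncomputable def vals {n D : ℕ} (s : Fin n → Finset (E)[X]) :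
    (Fin D → E) →+ ((j : Fin n) → (s j) → Ex E (j + 1)) where
  toFun u j P := aeval (rt E (j + 1) P) (low E u)
  map_zero' := by
    funext j P
    simp [low]
  map_add' u v := by
    funext j P
    simp [low, add_mul, sum_add_distrib]

/-- the evaluation at `rt P` is surjective -/
lemma aeval_surj (k : ℕ) (hk : k ≠ 0) (P : (E)[X]) (hP : P ∈ Irr E k) (z : Ex E k) :
    ∃ h : (E)[X], aeval (rt E k P) h = z := by
  have h1 : IntermediateField.adjoin (E) {rt E k P} = ⊤ := by
    rw [Field.primitive_element_iff_minpoly_natDegree_eq, minpoly_rt E k P hP, finrank_ex E hk]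
    exact ((mem_Irr E k hk P).1 hP).2.2
  have h2 : Algebra.adjoin (E) {rt E k P} = ⊤ := by
    rw [← IntermediateField.adjoin_simple_toSubalgebra_of_isAlgebraic (Algebra.IsAlgebraic.isAlgebraic _), h1]
    rfl
  rw [Algebra.adjoin_singleton_eq_range_aeval] at h2
  have h3 : z ∈ (aeval (rt E k P) : (E)[X] →ₐ[E] Ex E k).range := by
    rw [h2]
    exact Algebra.mem_top
  exact h3

theorem vals_surj {n D : ℕ} (s : Fin n → Finset (E)[X]) (hs : ∀ j, s j ⊆ Irr E (j + 1))
    (hD : ∑ j : Fin n, (j + 1 : ℕ) * (s j).card ≤ D) : Function.Surjective (vals E (D := D) s) := by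
  classical
  intro v
  have hm : ∀ i : (Σ j : Fin n, s j), (i.2 : (E)[X]).Monic ∧ Irreducible (i.2 : (E)[X]) ∧
      (i.2 : (E)[X]).natDegree = i.1 + 1 := by
    intro i
    exact (mem_Irr E (i.1 + 1) (by omega) _).1 (hs i.1 i.2.2)
  have hx : ∀ i : (Σ j : Fin n, s j), ∃ h : (E)[X], aeval (rt E (i.1 + 1) i.2) h = v i.1 i.2 := by
    intro i
    exact aeval_surj E (i.1 + 1) (by omega) _ (hs i.1 i.2.2) _
  choose x hx using hx
  have hcop : Pairwise (Function.onFun IsCoprime (fun i : (Σ j : Fin n, s j) => Ideal.span {(i.2 : (E)[X])})) := by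
    intro i i' hii
    show IsCoprime (Ideal.span {(i.2 : (E)[X])}) (Ideal.span {(i'.2 : (E)[X])})
    rw [Ideal.isCoprime_span_singleton_iff, Irreducible.coprime_iff_not_dvd (hm i).2.1]
    intro hdvd
    apply hii
    have h1 : (i.2 : (E)[X]) = i'.2 := by
      apply eq_of_monic_of_associated (hm i).1 (hm i').1
      exact (hm i).2.1.associated_of_dvd (hm i').2.1 hdvd
    have h2 : i.1 = i'.1 := by
      have e1 := (hm i).2.2
      rw [h1, (hm i').2.2] at e1
      exact Fin.ext (by omega)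
    obtain ⟨j, P, hP⟩ := i
    obtain ⟨j', P', hP'⟩ := i'
    simp only at h1 h2
    subst h2
    subst h1
    rfl
  obtain ⟨h, hh⟩ := Ideal.exists_forall_sub_mem_ideal hcop x
  obtain ⟨M, hM⟩ : ∃ M : (E)[X], M = ∏ i : (Σ j : Fin n, s j), (i.2 : (E)[X]) := ⟨_, rfl⟩
  have hMm : M.Monic := by
    rw [hM]
    exact monic_prod_of_monic _ _ (fun i _ => (hm i).1)
  have hMd : M.natDegree ≤ D := by
    rw [hM, natDegree_prod_of_monic _ _ (fun i _ => (hm i).1), Fintype.sum_sigma]
    refine le_trans (le_of_eq ?_) hD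
    refine sum_congr rfl fun j _ => ?_
    rw [sum_congr rfl (g := fun _ => (j + 1 : ℕ)) (fun P _ => (hm ⟨j, P⟩).2.2), sum_const, card_univ, Fintype.card_coe, smul_eq_mul, mul_comm]
  have hroot : ∀ i : (Σ j : Fin n, s j), aeval (rt E (i.1 + 1) i.2) (i.2 : (E)[X]) = 0 := by
    intro i
    have h1 := minpoly.aeval (E) (rt E (i.1 + 1) i.2)
    rwa [minpoly_rt E (i.1 + 1) _ (hs i.1 i.2.2)] at h1
  have hgeval : ∀ i : (Σ j : Fin n, s j), aeval (rt E (i.1 + 1) i.2) (h %ₘ M) = v i.1 i.2 := by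
    intro i
    have e1 : aeval (rt E (i.1 + 1) i.2) M = 0 := by
      rw [hM, map_prod]
      exact prod_eq_zero (mem_univ i) (hroot i)
    have e2 : aeval (rt E (i.1 + 1) i.2) h = aeval (rt E (i.1 + 1) i.2) (h %ₘ M) := by
      conv_lhs => rw [← modByMonic_add_div h M]
      rw [map_add, map_mul, e1, zero_mul, add_zero]
    obtain ⟨q, hq⟩ := Ideal.mem_span_singleton.1 (hh i)
    have e3 : aeval (rt E (i.1 + 1) i.2) (h - x i) = 0 := by
      rw [hq, map_mul, hroot i, zero_mul]
    rw [map_sub, sub_eq_zero] at e3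
    rw [← e2, e3, hx i]
  have hgd : (h %ₘ M).degree < D := by
    refine (degree_modByMonic_lt h hMm).trans_le ?_
    rw [degree_eq_natDegree hMm.ne_zero]
    exact_mod_cast hMd
  refine ⟨fun i => (h %ₘ M).coeff i, ?_⟩
  have hlow : low E (fun i : Fin D => (h %ₘ M).coeff i) = h %ₘ M := by
    unfold low
    rw [Fin.sum_univ_eq_sum_range (fun i => C ((h %ₘ M).coeff i) * X ^ i) D]
    by_cases hz : h %ₘ M = 0
    · rw [hz]
      simp
    · exact (as_sum_range_C_mul_X_pow' _ ((natDegree_lt_iff_degree_lt hz).2 hgd)).symm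
  funext j P
  show aeval (rt E (j + 1) P) (low E _) = v j P
  rw [hlow]
  exact hgeval ⟨j, P⟩

open Classical in
/-- **independence** -/
theorem indep {n D : ℕ} (s : Fin n → Finset (E)[X]) (hs : ∀ j, s j ⊆ Irr E (j + 1))
    (hD : ∑ j : Fin n, (j + 1 : ℕ) * (s j).card ≤ D) (F : (j : Fin n) → (s j → Ex E (j + 1)) → ℝ) :
    (∑ u : Fin D → E, ∏ j, F j (fun P => aeval (rt E (j + 1) P) (fp E u))) / (Fintype.card E : ℝ) ^ D =
      ∏ j, (∑ v : s j → Ex E (j + 1), F j v) / (Fintype.card (s j → Ex E (j + 1)) : ℝ) := by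
  classical
  have h1 := Pool.Agent.Y57.FD.Mom.mean_hom (vals E (D := D) s) (vals_surj E s hs hD)
    (fun v => ∏ j, F j (fun P => rt E (j + 1) P ^ D + v j P))
  have c1 : (Fintype.card (Fin D → E) : ℝ) = (Fintype.card E : ℝ) ^ D := by
    rw [Fintype.card_pi_const, show Fintype.card E = Fintype.card E from rfl]
    push_cast
    rfl
  rw [c1] at h1
  have h2 : ∀ u : Fin D → E, (∏ j, F j (fun P => aeval (rt E (j + 1) P) (fp E u))) =
      (fun v : (j : Fin n) → (s j) → Ex E (j + 1) => ∏ j, F j (fun P => rt E (j + 1) P ^ D + v j P)) (vals E s u) := by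
    intro u
    refine prod_congr rfl fun j _ => ?_
    congr 1
    funext P
    show aeval (rt E (j + 1) P) (fp E u) = rt E (j + 1) P ^ D + aeval (rt E (j + 1) P) (low E u)
    unfold fp
    rw [map_add, map_pow, aeval_X]
  rw [sum_congr rfl (fun u _ => h2 u), h1, prod_div_distrib, Fintype.card_pi]
  push_cast
  congr 1
  have h3 := prod_univ_sum (fun j : Fin n => (univ : Finset (s j → Ex E (j + 1))))
    (fun j v => F j (fun P => rt E (j + 1) P ^ D + v P))
  rw [Fintype.piFinset_univ] at h3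
  rw [← h3]
  refine prod_congr rfl fun j _ => ?_
  refine Fintype.sum_equiv (Equiv.addLeft (fun P : s j => rt E (j + 1) P ^ D)) _ _ ?_
  intro v
  rfl

end

open Classical in
/-- **the joint moments of the sums over the closed points** -/
theorem joint (E : Type) [Field E] [Fintype E] (l : ℕ) {n D : ℕ} (r : Fin n → ℕ) (hD : ∑ j : Fin n, (j + 1 : ℕ) * r j ≤ D) :
    (∑ u : Fin D → E, ∏ j : Fin n, G E l (j + 1) (fp E u) ^ r j) / (Fintype.card E : ℝ) ^ D =
      ∏ j : Fin n, Mg (Ex E (j + 1)) (nu l) (r j) (Irr E (j + 1)).card := by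
  classical
  -- both sides as sums over the tuples of closed points
  have h1 : ∀ u : Fin D → E, ∏ j : Fin n, G E l (j + 1) (fp E u) ^ r j =
      ∑ x : (j : Fin n) → (Fin (r j) → Irr E (j + 1)), ∏ j : Fin n, ∏ i, nu l (aeval (rt E (j + 1) (x j i)) (fp E u)) := by
    intro u
    have e1 : ∀ j : Fin n, G E l (j + 1) (fp E u) ^ r j =
        ∑ y : Fin (r j) → Irr E (j + 1), ∏ i, nu l (aeval (rt E (j + 1) (y i)) (fp E u)) := by
      intro j
      unfold G
      rw [← sum_coe_sort (Irr E (j + 1)) (fun P => nu l (aeval (rt E (j + 1) P) (fp E u))), Fintype.sum_pow]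
    rw [prod_congr rfl (fun j _ => e1 j)]
    have e2 := prod_univ_sum (fun j : Fin n => (univ : Finset (Fin (r j) → Irr E (j + 1))))
      (fun j y => ∏ i, nu l (aeval (rt E (j + 1) (y i)) (fp E u)))
    rw [Fintype.piFinset_univ] at e2
    exact e2
  have h2 : ∀ j : Fin n, Mg (Ex E (j + 1)) (nu l) (r j) (Irr E (j + 1)).card =
      ∑ y : Fin (r j) → Irr E (j + 1), (∑ h : Irr E (j + 1) → Ex E (j + 1), ∏ i, nu l (h (y i))) /
        (Fintype.card (Irr E (j + 1) → Ex E (j + 1)) : ℝ) := by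
    intro j
    rw [← Mg_eq, ← sum_div, sum_comm]
    congr 1
    refine sum_congr rfl fun h _ => ?_
    exact Fintype.sum_pow _ _
  have h3 : ∏ j : Fin n, Mg (Ex E (j + 1)) (nu l) (r j) (Irr E (j + 1)).card =
      ∑ x : (j : Fin n) → (Fin (r j) → Irr E (j + 1)), ∏ j : Fin n, (∑ h : Irr E (j + 1) → Ex E (j + 1), ∏ i, nu l (h (x j i))) /
        (Fintype.card (Irr E (j + 1) → Ex E (j + 1)) : ℝ) := by
    rw [prod_congr rfl (fun j _ => h2 j)]
    have e2 := prod_univ_sum (fun j : Fin n => (univ : Finset (Fin (r j) → Irr E (j + 1))))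
      (fun j y => (∑ h : Irr E (j + 1) → Ex E (j + 1), ∏ i, nu l (h (y i))) /
        (Fintype.card (Irr E (j + 1) → Ex E (j + 1)) : ℝ))
    rw [Fintype.piFinset_univ] at e2
    exact e2
  rw [sum_congr rfl (fun u _ => h1 u), sum_comm, sum_div, h3]
  refine sum_congr rfl fun x _ => ?_
  -- the points which occur
  obtain ⟨s, hs⟩ : ∃ s : Fin n → Finset (E)[X], s = fun j => univ.image (fun i => (x j i : (E)[X])) := ⟨_, rfl⟩
  have hmem : ∀ j i, (x j i : (E)[X]) ∈ s j := by
    intro j i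
    rw [hs]
    exact mem_image_of_mem _ (mem_univ i)
  have hsub : ∀ j, s j ⊆ Irr E (j + 1) := by
    intro j P hP
    rw [hs] at hP
    obtain ⟨i, _, rfl⟩ := mem_image.1 hP
    exact (x j i).2
  have hc : ∀ j, (s j).card ≤ r j := by
    intro j
    rw [hs]
    refine card_image_le.trans ?_
    rw [card_univ, Fintype.card_fin]
  have hD' : ∑ j : Fin n, (j + 1 : ℕ) * (s j).card ≤ D :=
    (sum_le_sum fun j _ => Nat.mul_le_mul_left _ (hc j)).trans hD
  have h4 := indep E s hsub hD' (fun j v => ∏ i, nu l (v ⟨x j i, hmem j i⟩))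
  refine Eq.trans h4 (prod_congr rfl fun j _ => ?_)
  have h5 := Pool.Agent.Y57.FD.Mom.mean_hom (resF (E := Ex E (j + 1)) (s j) (Irr E (j + 1)) (hsub j))
    (resF_surj _ _ (hsub j)) (fun v => ∏ i, nu l (v ⟨x j i, hmem j i⟩))
  exact h5.symm

end Pool.Agent.N842.SQ
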