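import Pool.Agent.N842.SQ.Th

/-!
# The local functions of the Weil restrictions
-/

set_option autoImplicit false

namespace Pool.Agent.N842.SQ

open Pool.Agent.N842.ST
open Finset NumberField IsDedekindDomain
open Pool.Agent.TH894.NE (mean box mem_box)

attribute [local instance] rsFin vpFin vpDec gfFin

/-- reindexing of the multiples of `f` -/
lemma re_prod (D f : ℕ) (hf : 1 ≤ f) (H : ℕ → ℝ) (hH : ∀ k, D ≤ k → H k = 1) :
    ∏ k ∈ range D, (if f ∣ k + 1 then H k else 1) = ∏ j ∈ range D, H (f * (j + 1) - 1) := by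
  rw [← prod_filter]
  have e0 : ∀ j, j + 1 ≤ f * (j + 1) := fun j => Nat.le_mul_of_pos_left _ (by omega)
  refine Finset.prod_bij_ne_one (fun k _ _ => (k + 1) / f - 1) ?_ ?_ ?_ ?_
  · intro k hk _
    rw [mem_filter, mem_range] at hk
    rw [mem_range]
    have := Nat.div_le_self (k + 1) f
    omega
  · intro k hk _ k' hk' _ h
    rw [mem_filter, mem_range] at hk hk'
    obtain ⟨a, ha⟩ := hk.2
    obtain ⟨b, hb⟩ := hk'.2
    rw [ha, hb, Nat.mul_div_cancel_left _ (by omega), Nat.mul_div_cancel_left _ (by omega)] at h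
    have ha0 : a ≠ 0 := by
      rintro rfl
      omega
    have hb0 : b ≠ 0 := by
      rintro rfl
      omega
    have hab : a = b := by omega
    rw [hab] at ha
    omega
  · intro j hj hne
    rw [mem_range] at hj
    have h1 := e0 j
    have h2 : f * (j + 1) - 1 < D := by
      by_contra hcon
      exact hne (hH _ (by omega))
    have h3 : f * (j + 1) - 1 + 1 = f * (j + 1) := by omega
    refine ⟨f * (j + 1) - 1, ?_, hne, ?_⟩
    · rw [mem_filter, mem_range, h3]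
      exact ⟨h2, dvd_mul_right _ _⟩
    · rw [h3, Nat.mul_div_cancel_left _ (by omega)]
      omega
  · intro k hk _
    rw [mem_filter, mem_range] at hk
    obtain ⟨a, ha⟩ := hk.2
    have ha0 : a ≠ 0 := by
      rintro rfl
      omega
    rw [ha, Nat.mul_div_cancel_left _ (by omega)]
    have h1 : a - 1 + 1 = a := by omega
    rw [h1, ← ha]
    congr 1

/-- reindexing of the multiples of `f` -/
lemma re_sum (D f : ℕ) (hf : 1 ≤ f) (H : ℕ → ℕ) (hH : ∀ k, D ≤ k → H k = 0) :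
    ∑ k ∈ range D, (if f ∣ k + 1 then H k else 0) = ∑ j ∈ range D, H (f * (j + 1) - 1) := by
  rw [← sum_filter]
  have e0 : ∀ j, j + 1 ≤ f * (j + 1) := fun j => Nat.le_mul_of_pos_left _ (by omega)
  refine Finset.sum_bij_ne_zero (fun k _ _ => (k + 1) / f - 1) ?_ ?_ ?_ ?_
  · intro k hk _
    rw [mem_filter, mem_range] at hk
    rw [mem_range]
    have := Nat.div_le_self (k + 1) f
    omega
  · intro k hk _ k' hk' _ h
    rw [mem_filter, mem_range] at hk hk'
    obtain ⟨a, ha⟩ := hk.2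
    obtain ⟨b, hb⟩ := hk'.2
    rw [ha, hb, Nat.mul_div_cancel_left _ (by omega), Nat.mul_div_cancel_left _ (by omega)] at h
    have ha0 : a ≠ 0 := by
      rintro rfl
      omega
    have hb0 : b ≠ 0 := by
      rintro rfl
      omega
    have hab : a = b := by omega
    rw [hab] at ha
    omega
  · intro j hj hne
    rw [mem_range] at hj
    have h1 := e0 j
    have h2 : f * (j + 1) - 1 < D := by
      by_contra hcon
      exact hne (hH _ (by omega))
    have h3 : f * (j + 1) - 1 + 1 = f * (j + 1) := by omega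
    refine ⟨f * (j + 1) - 1, ?_, hne, ?_⟩
    · rw [mem_filter, mem_range, h3]
      exact ⟨h2, dvd_mul_right _ _⟩
    · rw [h3, Nat.mul_div_cancel_left _ (by omega)]
      omega
  · intro k hk _
    rw [mem_filter, mem_range] at hk
    obtain ⟨a, ha⟩ := hk.2
    have ha0 : a ≠ 0 := by
      rintro rfl
      omega
    rw [ha, Nat.mul_div_cancel_left _ (by omega)]
    have h1 : a - 1 + 1 = a := by omega
    rw [h1, ← ha]
    congr 1

section
variable {K : Type} [Field K] [NumberField K]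

/-- the summands of the traces -/
noncomputable def Xv (l D p : ℕ) [Fact p.Prime] (v : Vp K p) (y : Fin D → Rs v.1) (k : Fin D) : ℝ :=
  if dv p v.1 ∣ (k : ℕ) + 1 then (dv p v.1 : ℝ) * A l D (((k : ℕ) + 1) / dv p v.1) (Rs v.1) y else 0

/-- the traces -/
noncomputable def tr (l k p : ℕ) [Fact p.Prime] {D : ℕ} (c : Fin D → 𝓞 K) : ℝ :=
  ∑ᶠ φ : 𝓞 K →+* GaloisField p k, val (GaloisField p k) l (fun i => φ (c i))

lemma dg_gal (p : ℕ) [hp : Fact p.Prime] (k : ℕ) (hk : k ≠ 0) : dg p (GaloisField p k) = k := by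
  unfold dg
  rw [card_gf p k hk, Nat.log_pow hp.out.one_lt]

lemma tr_eq (l p : ℕ) [hp : Fact p.Prime] {D : ℕ} (k : Fin D) (c : Fin D → 𝓞 K) :
    tr l ((k : ℕ) + 1) p c = - ∑ v : Vp K p, Xv l D p v (fun i => rh v.1 (c i)) k := by
  unfold tr
  have h1 := sum_hom (K := K) p (GaloisField p ((k : ℕ) + 1)) (fun φ => val (GaloisField p ((k : ℕ) + 1)) l (fun i => φ (c i)))
    (fun v => - A l D (dg p (GaloisField p ((k : ℕ) + 1)) / dg p (Rs v.1)) (Rs v.1) (fun i => rh v.1 (c i)))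
    (fun v ψ => val_hom p (Rs v.1) (GaloisField p ((k : ℕ) + 1)) ψ l (fun i => rh v.1 (c i)))
  rw [h1, ← sum_neg_distrib]
  refine sum_congr rfl fun v _ => ?_
  unfold Xv
  rw [dg_gal p _ (by omega)]
  split_ifs with h2
  · unfold dv
    ring
  · rw [neg_zero]

variable (K) in
lemma homs_eq (p : ℕ) [hp : Fact p.Prime] (k : ℕ) (hk : k ≠ 0) :
    (Nat.card (𝓞 K →+* GaloisField p k) : ℝ) = ∑ v : Vp K p, (if dv p v.1 ∣ k then (dv p v.1 : ℝ) else 0) := by
  have h1 := sum_hom (K := K) p (GaloisField p k) (fun _ => 1) (fun _ => 1) (fun v ψ => rfl)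
  rw [dg_gal p k hk] at h1
  simp only [mul_one] at h1
  rw [← h1]
  have : Fintype (𝓞 K →+* GaloisField p k) := Fintype.ofFinite _
  rw [finsum_eq_sum_of_fintype, sum_const, card_univ, nsmul_eq_mul, mul_one, Nat.card_eq_fintype_card]

/-- the variances -/
noncomputable def vrv (l p : ℕ) {D : ℕ} (v : Vp K p) (k : Fin D) : ℝ :=
  (((k : ℕ) + 1 : ℕ) : ℝ) * kap p l ((k : ℕ) + 1) * (if dv p v.1 ∣ (k : ℕ) + 1 then (dv p v.1 : ℝ) else 0)

/-- the means -/
noncomputable def mnv (l p : ℕ) {D : ℕ} (v : Vp K p) (k : Fin D) : ℝ :=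
  eta p l ((k : ℕ) + 1) * (if dv p v.1 ∣ ((k : ℕ) + 1) / 2 then (dv p v.1 : ℝ) else 0)

lemma eta_pow (p l f a : ℕ) (hf : 1 ≤ f) : eta p l (f * a) * (if f ∣ f * a / 2 then (f : ℝ) else 0) = f * eta (p ^ f) l a := by
  classical
  unfold eta
  by_cases h : Even (f * a) ∧ f ∣ f * a / 2
  · obtain ⟨h1, b, hb⟩ := h
    have h2 : a = 2 * b := by
      have h3 : f * a = 2 * (f * a / 2) := (Nat.two_mul_div_two_of_even h1).symm
      rw [hb] at h3
      have h4 : f * a = f * (2 * b) := by rw [h3]; ring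
      exact Nat.eq_of_mul_eq_mul_left (by omega) h4
    have h3 : f * a / 2 = f * b := hb
    have h4 : a / 2 = b := by omega
    rw [if_pos (show f ∣ f * a / 2 from ⟨b, hb⟩), h3, h4, pow_mul]
    have h5 : Even a := ⟨b, by omega⟩
    simp only [h1, h5, true_and]
    ring
  · have h5 : ¬ (Even a) := by
      rintro ⟨b, hb⟩
      apply h
      have h6 : f * a = 2 * (f * b) := by rw [hb]; ring
      refine ⟨⟨f * b, by omega⟩, ?_⟩
      rw [h6, Nat.mul_div_cancel_left _ (by norm_num)]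
      exact dvd_mul_right _ _
    rw [if_neg (show ¬ (Even a ∧ l ∣ (p ^ f) ^ (a / 2) + 1) from fun h' => h5 h'.1), mul_zero]
    by_cases h1 : Even (f * a)
    · rw [if_neg (show ¬ (f ∣ f * a / 2) from fun h' => h ⟨h1, h'⟩), mul_zero]
    · rw [if_neg (show ¬ (Even (f * a) ∧ l ∣ p ^ (f * a / 2) + 1) from fun h' => h1 h'.1), zero_mul]

lemma mnv_zero (l p : ℕ) {D : ℕ} (v : Vp K p) (k : Fin D) (h : ¬ dv p v.1 ∣ (k : ℕ) + 1) : mnv l p v k = 0 := by
  unfold mnv
  by_cases h1 : Even ((k : ℕ) + 1)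
  · rw [if_neg, mul_zero]
    intro h2
    apply h
    rw [← Nat.two_mul_div_two_of_even h1]
    exact h2.mul_left 2
  · unfold eta
    rw [if_neg (fun h2 => h1 h2.1), zero_mul]

/-- **the local means at one prime ideal** -/
theorem loc_v (l : ℕ) (hl : l.Prime) (D : ℕ) (hD : Nat.Coprime D l) : ∃ C : ℝ, 0 ≤ C ∧
    ∀ (p : ℕ) [Fact p.Prime], p ≠ l → ¬ p ∣ D → ∀ (v : Vp K p) (q : Fin D → ℕ), ∑ k : Fin D, ((k : ℕ) + 1) * q k ≤ D →
      |am (fun x : Fin D → Rs v.1 => ∏ k, Xv l D p v x k ^ q k) - ∏ k, nm (vrv l p v k) (mnv l p v k) (q k)| ≤ C / Real.sqrt p := by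
  classical
  have h0 : ∀ r : Fin D → ℕ, ∃ C : ℝ, 0 ≤ C ∧ (∑ j : Fin D, (j + 1 : ℕ) * r j ≤ D → ∀ (E : Type) [Field E] [Fintype E], (l : E) ≠ 0 → (D : E) ≠ 0 →
      |av E (fun u : Fin D → E => ∏ j : Fin D, A l D (j + 1) E u ^ r j) - PM l (Fintype.card E) r| ≤ C / Real.sqrt (Fintype.card E)) := by
    intro r
    by_cases h : ∑ j : Fin D, (j + 1 : ℕ) * r j ≤ D
    · obtain ⟨C, hC0, hC⟩ := local_mean l hl D hD r h
      exact ⟨C, hC0, fun _ => hC⟩
    · exact ⟨0, le_rfl, fun h' => absurd h' h⟩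
  choose C hC0 hC using h0
  obtain ⟨n, hn⟩ : ∃ n : ℕ, n = Module.finrank ℤ (𝓞 K) := ⟨_, rfl⟩
  obtain ⟨S, hS⟩ : ∃ S : Finset (Fin D → ℕ), S = Fintype.piFinset (fun _ : Fin D => range (D + 1)) := ⟨_, rfl⟩
  refine ⟨(n : ℝ) ^ D * ∑ r ∈ S, C r, mul_nonneg (by positivity) (sum_nonneg fun r _ => hC0 r), fun p hp hpl hpD v q hq => ?_⟩
  obtain ⟨f, hf⟩ : ∃ f : ℕ, f = dv p v.1 := ⟨_, rfl⟩
  obtain ⟨hcard, hf1⟩ := card_rs p v
  have hfn := dv_le p v
  rw [← hf] at hcard hf1 hfn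
  rw [← hn] at hfn
  have hp0 : (0 : ℝ) < p := by exact_mod_cast hp.out.pos
  have hsp : 0 < Real.sqrt p := Real.sqrt_pos.2 hp0
  by_cases hA : ∃ k : Fin D, ¬ f ∣ (k : ℕ) + 1 ∧ q k ≠ 0
  · obtain ⟨k, hk1, hk2⟩ := hA
    have e1 : (fun x : Fin D → Rs v.1 => ∏ k, Xv l D p v x k ^ q k) = fun _ => 0 := by
      funext x
      apply prod_eq_zero (mem_univ k)
      unfold Xv
      rw [← hf, if_neg hk1, zero_pow hk2]
    have e2 : ∏ k, nm (vrv l p v k) (mnv l p v k) (q k) = 0 := by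
      apply prod_eq_zero (mem_univ k)
      rw [mnv_zero l p v k (by rw [← hf]; exact hk1)]
      unfold vrv
      rw [← hf, if_neg hk1, mul_zero, nm_const, zero_pow hk2]
    rw [e1, e2, am_const, sub_zero, abs_zero]
    have := sum_nonneg fun r (_ : r ∈ S) => hC0 r
    positivity
  · push Not at hA
    obtain ⟨Q, hQ⟩ : ∃ Q : ℕ → ℕ, Q = fun k => if h : k < D then q ⟨k, h⟩ else 0 := ⟨_, rfl⟩
    have hQ1 : ∀ k : Fin D, Q k = q k := fun k => by rw [hQ]; exact dif_pos k.2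
    have hQ2 : ∀ k, D ≤ k → Q k = 0 := fun k hk => by rw [hQ]; exact dif_neg (by omega)
    have hQ3 : ∀ k, ¬ f ∣ k + 1 → Q k = 0 := by
      intro k hk
      by_cases hkD : k < D
      · rw [← hA ⟨k, hkD⟩ hk, ← hQ1]
      · exact hQ2 k (by omega)
    obtain ⟨r, hr⟩ : ∃ r : Fin D → ℕ, r = fun j : Fin D => Q (f * ((j : ℕ) + 1) - 1) := ⟨_, rfl⟩
    have e0 : ∀ j, f * (j + 1) - 1 + 1 = f * (j + 1) := fun j => Nat.sub_add_cancel (Nat.mul_pos (by omega) (by omega))
    have hrw : ∑ j : Fin D, ((j : ℕ) + 1) * r j ≤ D := by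
      rw [hr, Fin.sum_univ_eq_sum_range (fun j => (j + 1) * Q (f * (j + 1) - 1)) D]
      have h1 := re_sum D f hf1 (fun k => (k + 1) * Q k) (fun k hk => by rw [hQ2 k hk, mul_zero])
      calc ∑ j ∈ range D, (j + 1) * Q (f * (j + 1) - 1) ≤ ∑ j ∈ range D, (f * (j + 1) - 1 + 1) * Q (f * (j + 1) - 1) := by
            apply sum_le_sum
            intro j _
            rw [e0]
            exact Nat.mul_le_mul_right _ (Nat.le_mul_of_pos_left _ (by omega))
        _ = ∑ k ∈ range D, (if f ∣ k + 1 then (k + 1) * Q k else 0) := h1.symm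
        _ ≤ ∑ k ∈ range D, (k + 1) * Q k := by
            apply sum_le_sum
            intro k _
            split_ifs
            · exact le_rfl
            · exact Nat.zero_le _
        _ = ∑ k : Fin D, ((k : ℕ) + 1) * q k := by
            rw [← Fin.sum_univ_eq_sum_range (fun k => (k + 1) * Q k) D]
            exact sum_congr rfl fun k _ => by rw [hQ1]
        _ ≤ D := hq
    have hrS : r ∈ S := by
      rw [hS, Fintype.mem_piFinset]
      intro j
      rw [mem_range]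
      have h1 := single_le_sum (f := fun j : Fin D => ((j : ℕ) + 1) * r j) (fun _ _ => Nat.zero_le _) (mem_univ j)
      have h2 : r j ≤ ((j : ℕ) + 1) * r j := Nat.le_mul_of_pos_left _ (by omega)
      omega
    have hrs : ∑ j : Fin D, r j ≤ D := by
      refine (sum_le_sum fun j _ => ?_).trans hrw
      exact Nat.le_mul_of_pos_left _ (by omega)
    -- the products
    have e1 : ∀ x : Fin D → Rs v.1, ∏ k, Xv l D p v x k ^ q k = (f : ℝ) ^ (∑ j, r j) * ∏ j : Fin D, A l D (j + 1) (Rs v.1) x ^ r j := by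
      intro x
      have h1 := re_prod D f hf1 (fun k => ((f : ℝ) * A l D ((k + 1) / f) (Rs v.1) x) ^ Q k) (fun k hk => by rw [hQ2 k hk, pow_zero])
      have h2 : ∏ k, Xv l D p v x k ^ q k = ∏ k ∈ range D, (if f ∣ k + 1 then ((f : ℝ) * A l D ((k + 1) / f) (Rs v.1) x) ^ Q k else 1) := by
        rw [← Fin.prod_univ_eq_prod_range (fun k => if f ∣ k + 1 then ((f : ℝ) * A l D ((k + 1) / f) (Rs v.1) x) ^ Q k else 1) D]
        refine prod_congr rfl fun k _ => ?_
        unfold Xv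
        rw [← hf, ← hQ1 k]
        by_cases hk : f ∣ (k : ℕ) + 1
        · rw [if_pos hk, if_pos hk]
        · rw [if_neg hk, if_neg hk, hQ3 k hk, pow_zero]
      rw [h2, h1, ← Fin.prod_univ_eq_prod_range (fun j => ((f : ℝ) * A l D ((f * (j + 1) - 1 + 1) / f) (Rs v.1) x) ^ Q (f * (j + 1) - 1)) D,
        ← prod_pow_eq_pow_sum, ← prod_mul_distrib]
      refine prod_congr rfl fun j _ => ?_
      rw [e0, Nat.mul_div_cancel_left _ (by omega), mul_pow, hr]
    have e2 : ∏ k, nm (vrv l p v k) (mnv l p v k) (q k) = (f : ℝ) ^ (∑ j, r j) * PM l (Fintype.card (Rs v.1)) r := by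
      obtain ⟨W, hW⟩ : ∃ W : ℕ → ℝ, W = fun k => nm (((k + 1 : ℕ) : ℝ) * kap p l (k + 1) * (if f ∣ k + 1 then (f : ℝ) else 0))
          (eta p l (k + 1) * (if f ∣ (k + 1) / 2 then (f : ℝ) else 0)) (Q k) := ⟨_, rfl⟩
      have h1 := re_prod D f hf1 W (fun k hk => by
        rw [hW]
        beta_reduce
        rw [hQ2 k hk, nm_zero])
      have h2 : ∏ k, nm (vrv l p v k) (mnv l p v k) (q k) = ∏ k ∈ range D, (if f ∣ k + 1 then W k else 1) := by
        rw [← Fin.prod_univ_eq_prod_range (fun k => if f ∣ k + 1 then W k else 1) D]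
        refine prod_congr rfl fun k _ => ?_
        have e3 : nm (vrv l p v k) (mnv l p v k) (q k) = W k := by
          rw [hW]
          unfold vrv mnv
          rw [← hf, ← hQ1 k]
        rw [e3]
        by_cases hk : f ∣ (k : ℕ) + 1
        · rw [if_pos hk]
        · rw [if_neg hk, hW]
          beta_reduce
          rw [hQ3 k hk, nm_zero]
      rw [h2, h1, ← Fin.prod_univ_eq_prod_range (fun j => W (f * (j + 1) - 1)) D]
      unfold PM
      rw [← prod_pow_eq_pow_sum, ← prod_mul_distrib]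
      refine prod_congr rfl fun j _ => ?_
      rw [hW]
      beta_reduce
      rw [e0, if_pos (dvd_mul_right _ _), eta_pow p l f ((j : ℕ) + 1) hf1, mu_eq, hcard]
      have e4 : ((f * ((j : ℕ) + 1) : ℕ) : ℝ) * kap p l (f * ((j : ℕ) + 1)) * (f : ℝ) = (f : ℝ) ^ 2 * ((((j : ℕ) + 1 : ℕ) : ℝ) * kap (p ^ f) l ((j : ℕ) + 1)) := by
        have e5 : kap p l (f * ((j : ℕ) + 1)) = kap (p ^ f) l ((j : ℕ) + 1) := by
          unfold kap
          rw [pow_mul]
        rw [e5]
        push_cast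
        ring
      rw [e4, nm_smul, hr]
    have e3 : (fun x : Fin D → Rs v.1 => ∏ k, Xv l D p v x k ^ q k) = fun x => (f : ℝ) ^ (∑ j, r j) * ∏ j : Fin D, A l D (j + 1) (Rs v.1) x ^ r j := funext e1
    have e4 : am (fun x : Fin D → Rs v.1 => (f : ℝ) ^ (∑ j, r j) * ∏ j : Fin D, A l D (j + 1) (Rs v.1) x ^ r j) =
        (f : ℝ) ^ (∑ j, r j) * av (Rs v.1) (fun x => ∏ j : Fin D, A l D (j + 1) (Rs v.1) x ^ r j) := by
      unfold am av
      rw [← mul_sum, mul_div_assoc, Fintype.card_fun, Fintype.card_fin]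
      push_cast
      rfl
    rw [e3, e4, e2, ← mul_sub, abs_mul, abs_of_nonneg (by positivity : (0 : ℝ) ≤ (f : ℝ) ^ (∑ j, r j))]
    have hlE : ((l : ℕ) : Rs v.1) ≠ 0 := by
      intro h
      exact hpl ((Nat.prime_dvd_prime_iff_eq hp.out hl).1 ((CharP.cast_eq_zero_iff (Rs v.1) p l).1 h))
    have hDE : ((D : ℕ) : Rs v.1) ≠ 0 := by
      intro h
      exact hpD ((CharP.cast_eq_zero_iff (Rs v.1) p D).1 h)
    have h5 := hC r hrw (Rs v.1) hlE hDE
    have hcp : Real.sqrt p ≤ Real.sqrt (Fintype.card (Rs v.1)) := by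
      apply Real.sqrt_le_sqrt
      rw [hcard]
      exact_mod_cast Nat.le_self_pow (by omega) p
    have h6 : (f : ℝ) ^ (∑ j, r j) ≤ (n : ℝ) ^ D := by
      have h7 : f ^ (∑ j, r j) ≤ n ^ D :=
        (Nat.pow_le_pow_left hfn _).trans (Nat.pow_le_pow_right (by omega) hrs)
      exact_mod_cast h7
    have h7 : C r ≤ ∑ r ∈ S, C r := single_le_sum (f := C) (fun r _ => hC0 r) hrS
    calc (f : ℝ) ^ (∑ j, r j) * |av (Rs v.1) (fun x => ∏ j : Fin D, A l D (j + 1) (Rs v.1) x ^ r j) - PM l (Fintype.card (Rs v.1)) r| ≤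
        (n : ℝ) ^ D * ((∑ r ∈ S, C r) / Real.sqrt p) := by
          apply mul_le_mul h6 _ (abs_nonneg _) (by positivity)
          refine h5.trans ?_
          exact div_le_div₀ ((hC0 r).trans h7) h7 hsp hcp
      _ = _ := by ring

end

end Pool.Agent.N842.SQ
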