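import Pool.Agent.N842.SQ.Loc

/-!
# The local means of the Weil restrictions
-/

set_option autoImplicit false

namespace Pool.Agent.N842.SQ

open Pool.Agent.N842.ST
open Finset NumberField IsDedekindDomain
open Pool.Agent.TH894.NE (mean box mem_box)

attribute [local instance] rsFin vpFin vpDec gfFin

section
variable {K : Type} [Field K] [NumberField K]

/-- the sums over the prime ideals -/
noncomputable def TT (l D p : ℕ) [Fact p.Prime] (x : (v : Vp K p) → Fin D → Rs v.1) (k : Fin D) : ℝ := ∑ v : Vp K p, Xv l D p v (x v) k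

/-- the local functions -/
noncomputable def HF (l D N p : ℕ) [Fact p.Prime] (q : Fin N → Fin D → ℕ) (c : Fin (N * D) → 𝓞 K) : ℝ :=
  ∏ e : Fin N, ∏ k : Fin D, tr l ((k : ℕ) + 1) p (fun i => c (finProdFinEquiv (e, i))) ^ q e k

/-- the local functions of the reductions for one curve -/
noncomputable def g1 (l D p : ℕ) [Fact p.Prime] (q : Fin D → ℕ) (x : (v : Vp K p) → Fin D → Rs v.1) : ℝ :=
  ∏ k : Fin D, (- TT l D p x k) ^ q k

/-- the local functions of the reductions -/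
noncomputable def GF (l D N p : ℕ) [Fact p.Prime] (q : Fin N → Fin D → ℕ) (x : Fin N → (v : Vp K p) → Fin D → Rs v.1) : ℝ :=
  ∏ e : Fin N, g1 l D p (q e) (x e)

lemma HF_eq {g : ℕ} (ω : Fin g → 𝓞 K) (l D N p : ℕ) [hp : Fact p.Prime] (q : Fin N → Fin D → ℕ) (m : Fin (N * D * g) → ℕ) :
    HF l D N p q (Pool.Agent.N842.HS.cf ω m) = GF l D N p q (Th (K := K) (N := N) (D := D) ω p (fun k => (m k : ZMod p))) := by
  unfold HF GF g1
  refine prod_congr rfl fun e _ => prod_congr rfl fun k _ => ?_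
  have h : ∀ v : Vp K p, (fun i : Fin D => rh v.1 (Pool.Agent.N842.HS.cf ω m (finProdFinEquiv (e, i)))) =
      Th (K := K) (N := N) (D := D) ω p (fun k => (m k : ZMod p)) e v := fun v => funext fun i => (th_cf (N := N) (D := D) ω p m e v i).symm
  have h2 : tr l ((k : ℕ) + 1) p (fun i : Fin D => Pool.Agent.N842.HS.cf ω m (finProdFinEquiv (e, i))) =
      - TT l D p (Th (K := K) (N := N) (D := D) ω p (fun k => (m k : ZMod p)) e) k := by
    rw [tr_eq]
    unfold TT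
    simp only [h]
  rw [h2]

variable (K) in
/-- the number of the homomorphisms -/
noncomputable def hm (p k : ℕ) [Fact p.Prime] : ℝ := Nat.card (𝓞 K →+* GaloisField p k)

variable (K) in
/-- the main values for one curve -/
noncomputable def h1 (l D p : ℕ) [Fact p.Prime] (q : Fin D → ℕ) : ℝ :=
  ∏ k : Fin D, nm ((((k : ℕ) + 1 : ℕ) : ℝ) * kap p l ((k : ℕ) + 1) * hm K p ((k : ℕ) + 1)) (-(eta p l ((k : ℕ) + 1) * hm K p (((k : ℕ) + 1) / 2))) (q k)

variable (K) in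
/-- the main values -/
noncomputable def HM (l D N p : ℕ) [Fact p.Prime] (q : Fin N → Fin D → ℕ) : ℝ := ∏ e : Fin N, h1 K l D p (q e)

lemma sum_vrv (l p : ℕ) [hp : Fact p.Prime] {D : ℕ} (k : Fin D) :
    ∑ v : Vp K p, vrv l p v k = (((k : ℕ) + 1 : ℕ) : ℝ) * kap p l ((k : ℕ) + 1) * hm K p ((k : ℕ) + 1) := by
  unfold hm vrv
  rw [homs_eq K p _ (by omega), mul_sum]

lemma sum_mnv (l p : ℕ) [hp : Fact p.Prime] {D : ℕ} (k : Fin D) :
    ∑ v : Vp K p, mnv l p v k = eta p l ((k : ℕ) + 1) * hm K p (((k : ℕ) + 1) / 2) := by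
  unfold hm mnv
  by_cases h : ((k : ℕ) + 1) / 2 = 0
  · have h1 : ¬ Even ((k : ℕ) + 1) := by
      rintro ⟨a, ha⟩
      omega
    unfold eta
    rw [if_neg (fun h2 => h1 h2.1)]
    simp
  · rw [homs_eq K p _ h, mul_sum]

variable (K) in
/-- the bound -/
noncomputable def BB (l D : ℕ) : ℝ := (Module.finrank ℤ (𝓞 K) : ℝ) * ((D + 1) * (l * (D + l + 1) : ℕ))

variable (K) in
lemma finrank_pos' : 1 ≤ Module.finrank ℤ (𝓞 K) := Module.finrank_pos

lemma BB_ge (l : ℕ) (hl : l.Prime) (D : ℕ) : 1 ≤ BB K l D ∧ (Module.finrank ℤ (𝓞 K) : ℝ) * ((l * (D + l + 1) : ℕ) : ℝ) ≤ BB K l D ∧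
    (D : ℝ) * l * Module.finrank ℤ (𝓞 K) ≤ BB K l D ∧ (l : ℝ) * Module.finrank ℤ (𝓞 K) ≤ BB K l D := by
  have hn := finrank_pos' K
  obtain ⟨n, hn'⟩ : ∃ n : ℕ, n = Module.finrank ℤ (𝓞 K) := ⟨_, rfl⟩
  unfold BB
  rw [← hn'] at hn ⊢
  have hl2 := hl.two_le
  have e1 : 1 ≤ n * ((D + 1) * (l * (D + l + 1))) := Nat.one_le_iff_ne_zero.2 (by positivity)
  have e2 : n * (l * (D + l + 1)) ≤ n * ((D + 1) * (l * (D + l + 1))) :=
    Nat.mul_le_mul_left _ (Nat.le_mul_of_pos_left _ (by omega))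
  have e4 : l * n ≤ n * ((D + 1) * (l * (D + l + 1))) := by
    rw [mul_comm l n]
    refine (Nat.mul_le_mul_left n ?_).trans e2
    exact Nat.le_mul_of_pos_right _ (by omega)
  have e3 : D * l * n ≤ n * ((D + 1) * (l * (D + l + 1))) := by
    calc D * l * n = n * (D * l) := by ring
      _ ≤ n * ((D + 1) * (l * (D + l + 1))) := by
        apply Nat.mul_le_mul_left
        apply Nat.mul_le_mul (by omega)
        exact Nat.le_mul_of_pos_right _ (by omega)
  refine ⟨?_, ?_, ?_, ?_⟩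
  · exact_mod_cast e1
  · exact_mod_cast e2
  · exact_mod_cast e3
  · exact_mod_cast e4

lemma Xv_le (l : ℕ) (hl : l.Prime) (D : ℕ) (hD : Nat.Coprime D l) (p : ℕ) [hp : Fact p.Prime] (v : Vp K p) (y : Fin D → Rs v.1) (k : Fin D) :
    |Xv l D p v y k| ≤ BB K l D := by
  obtain ⟨b1, b2, _, _⟩ := BB_ge (K := K) l hl D
  unfold Xv
  split_ifs with h
  · have hf1 := (card_rs p v).2
    have hfn := dv_le p v
    have hk0 : ((k : ℕ) + 1) / dv p v.1 ≠ 0 := by
      have h2 := Nat.div_mul_cancel h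
      intro h0
      rw [h0, zero_mul] at h2
      omega
    rw [abs_mul, Nat.abs_cast]
    refine le_trans ?_ b2
    exact mul_le_mul (by exact_mod_cast hfn) (A_le l hl D hD _ hk0 (Rs v.1) y) (abs_nonneg _) (by positivity)
  · rw [abs_zero]
    linarith

lemma vm_le (l : ℕ) (hl : l.Prime) (D : ℕ) (p : ℕ) [hp : Fact p.Prime] (v : Vp K p) (k : Fin D) :
    0 ≤ vrv l p v k ∧ vrv l p v k ≤ BB K l D ∧ 0 ≤ mnv l p v k ∧ mnv l p v k ≤ BB K l D := by
  obtain ⟨b1, b2, b3, b4⟩ := BB_ge (K := K) l hl D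
  have hf1 := (card_rs p v).2
  have hfn := dv_le p v
  have hfn' : (dv p v.1 : ℝ) ≤ Module.finrank ℤ (𝓞 K) := by exact_mod_cast hfn
  have hk := kap_nonneg p hl ((k : ℕ) + 1)
  have hk2 := kap_le p hl ((k : ℕ) + 1)
  have he := eta_nonneg p hl ((k : ℕ) + 1)
  have he2 := eta_le p hl ((k : ℕ) + 1)
  have hkD : (((k : ℕ) + 1 : ℕ) : ℝ) ≤ D := by exact_mod_cast k.2
  have hi : ∀ a : Prop, ∀ [Decidable a], 0 ≤ (if a then (dv p v.1 : ℝ) else 0) ∧ (if a then (dv p v.1 : ℝ) else 0) ≤ Module.finrank ℤ (𝓞 K) := by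
    intro a _
    split_ifs
    · exact ⟨Nat.cast_nonneg _, hfn'⟩
    · exact ⟨le_rfl, Nat.cast_nonneg _⟩
  unfold vrv mnv
  obtain ⟨i1, i2⟩ := hi (dv p v.1 ∣ (k : ℕ) + 1)
  obtain ⟨i3, i4⟩ := hi (dv p v.1 ∣ ((k : ℕ) + 1) / 2)
  refine ⟨by positivity, ?_, by positivity, ?_⟩
  · refine le_trans ?_ b3
    exact mul_le_mul (mul_le_mul hkD hk2 hk (Nat.cast_nonneg _)) i2 i1 (by positivity)
  · refine le_trans ?_ b4
    exact mul_le_mul he2 i4 i3 (by positivity)

lemma sum_vp_le (p : ℕ) [hp : Fact p.Prime] (F : Vp K p → ℝ) (B : ℝ) (hB : 0 ≤ B) (hF : ∀ v, F v ≤ B) :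
    ∑ v : Vp K p, F v ≤ Module.finrank ℤ (𝓞 K) * B := by
  refine (sum_le_sum fun v _ => hF v).trans ?_
  rw [sum_const, nsmul_eq_mul]
  exact mul_le_mul_of_nonneg_right (by exact_mod_cast vp_card K p) hB

/-- the bounds for one curve -/
lemma g1_le (l : ℕ) (hl : l.Prime) (D : ℕ) (hD : Nat.Coprime D l) (p : ℕ) [hp : Fact p.Prime] (q : Fin D → ℕ) (x : (v : Vp K p) → Fin D → Rs v.1) :
    |g1 l D p q x| ≤ ∏ k : Fin D, (Module.finrank ℤ (𝓞 K) * BB K l D) ^ q k := by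
  have hB := (BB_ge (K := K) l hl D).1
  unfold g1
  rw [abs_prod]
  apply prod_le_prod (fun k _ => abs_nonneg _)
  intro k _
  rw [abs_pow, abs_neg]
  apply pow_le_pow_left₀ (abs_nonneg _)
  unfold TT
  exact (abs_sum_le_sum_abs _ _).trans (sum_vp_le p _ _ (by linarith) fun v => Xv_le l hl D hD p v (x v) k)

lemma h1_eq (l D p : ℕ) [hp : Fact p.Prime] (q : Fin D → ℕ) :
    h1 K l D p q = (-1) ^ (∑ k, q k) * ∏ k : Fin D, nm (∑ v : Vp K p, vrv l p v k) (∑ v : Vp K p, mnv l p v k) (q k) := by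
  unfold h1
  rw [← prod_pow_eq_pow_sum, ← prod_mul_distrib]
  refine prod_congr rfl fun k _ => ?_
  rw [sum_vrv, sum_mnv, nm_neg]

lemma h1_le (l : ℕ) (hl : l.Prime) (D : ℕ) (p : ℕ) [hp : Fact p.Prime] (q : Fin D → ℕ) :
    |h1 K l D p q| ≤ ∏ k : Fin D, nm (Module.finrank ℤ (𝓞 K) * BB K l D) (Module.finrank ℤ (𝓞 K) * BB K l D) (q k) := by
  have hB := (BB_ge (K := K) l hl D).1
  have hB0 : 0 ≤ BB K l D := by linarith
  rw [h1_eq, abs_mul, abs_pow, abs_neg, abs_one, one_pow, one_mul, abs_prod]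
  apply prod_le_prod (fun k _ => abs_nonneg _)
  intro k _
  have a1 : 0 ≤ ∑ v : Vp K p, vrv l p v k := sum_nonneg fun v _ => (vm_le l hl D p v k).1
  have a2 : 0 ≤ ∑ v : Vp K p, mnv l p v k := sum_nonneg fun v _ => (vm_le l hl D p v k).2.2.1
  rw [abs_of_nonneg (nm_nonneg _ _ a1 a2 _)]
  exact nm_le _ _ _ a1 a2 (sum_vp_le p _ _ hB0 fun v => (vm_le l hl D p v k).2.1) (sum_vp_le p _ _ hB0 fun v => (vm_le l hl D p v k).2.2.2) _

variable (K) in
/-- **the local means for one curve** -/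
theorem loc_one (l : ℕ) (hl : l.Prime) (D : ℕ) (hD : Nat.Coprime D l) (q : Fin D → ℕ) (hq : ∑ k : Fin D, ((k : ℕ) + 1) * q k ≤ D) :
    ∃ C : ℝ, 0 ≤ C ∧ ∀ (p : ℕ) [Fact p.Prime], p ≠ l → ¬ p ∣ D → |am (g1 (K := K) l D p q) - h1 K l D p q| ≤ C / Real.sqrt p := by
  obtain ⟨C₁, hC₁0, hC₁⟩ := loc_v (K := K) l hl D hD
  obtain ⟨C₂, hC₂0, hC₂⟩ := sum_indep q (BB K l D) (BB_ge (K := K) l hl D).1 (Module.finrank ℤ (𝓞 K))
  refine ⟨C₂ * C₁, by positivity, fun p hp hpl hpD => ?_⟩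
  have hs : 0 ≤ Real.sqrt p := Real.sqrt_nonneg _
  have h2 := hC₂ (Vp K p) (fun v => Fin D → Rs v.1) (fun v => Xv l D p v) (fun v => vrv l p v) (fun v => mnv l p v) (C₁ / Real.sqrt p)
    (by positivity) (fun v k => vm_le l hl D p v k) (fun v y k => Xv_le l hl D hD p v y k)
    (fun v q' hq' => hC₁ p hpl hpD v q' (le_trans (sum_le_sum fun k _ => Nat.mul_le_mul_left _ (hq' k)) hq))
    univ (vp_card K p) q (fun _ => le_rfl)
  have e1 : am (g1 (K := K) l D p q) = (-1) ^ (∑ k, q k) * am (fun x : (v : Vp K p) → Fin D → Rs v.1 => ∏ k, (∑ v, Xv l D p v (x v) k) ^ q k) := by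
    have e2 : g1 (K := K) l D p q = fun x => (-1) ^ (∑ k, q k) * ∏ k, (∑ v, Xv l D p v (x v) k) ^ q k := by
      funext x
      unfold g1 TT
      rw [← prod_pow_eq_pow_sum, ← prod_mul_distrib]
      refine prod_congr rfl fun k _ => ?_
      rw [neg_pow]
    rw [e2]
    unfold am
    rw [← mul_sum, mul_div_assoc]
  rw [e1, h1_eq, ← mul_sub, abs_mul, abs_pow, abs_neg, abs_one, one_pow, one_mul, mul_div_assoc]
  exact h2

variable (K) in
/-- **the local means** -/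
theorem loc_all (l : ℕ) (hl : l.Prime) (D : ℕ) (hD : Nat.Coprime D l) (N : ℕ) (q : Fin N → Fin D → ℕ)
    (hq : ∀ e, ∑ k : Fin D, ((k : ℕ) + 1) * q e k ≤ D) :
    ∃ C : ℝ, 0 ≤ C ∧ ∀ (p : ℕ) [Fact p.Prime], |am (GF (K := K) l D N p q) - HM K l D N p q| ≤ C / Real.sqrt p := by
  have hch : ∀ e : Fin N, ∃ C : ℝ, 0 ≤ C ∧ ∀ (p : ℕ) [Fact p.Prime], p ≠ l → ¬ p ∣ D → |am (g1 (K := K) l D p (q e)) - h1 K l D p (q e)| ≤ C / Real.sqrt p :=
    fun e => loc_one K l hl D hD (q e) (hq e)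
  choose C hC0 hC using hch
  have hB := (BB_ge (K := K) l hl D).1
  obtain ⟨L, hL⟩ : ∃ L : ℝ, L = Module.finrank ℤ (𝓞 K) * BB K l D := ⟨_, rfl⟩
  have hL0 : 0 ≤ L := by
    rw [hL]
    have : 0 ≤ BB K l D := by linarith
    positivity
  obtain ⟨a, ha⟩ : ∃ a : Fin N → ℝ, a = fun e => ∏ k : Fin D, L ^ q e k := ⟨_, rfl⟩
  obtain ⟨b, hb⟩ : ∃ b : Fin N → ℝ, b = fun e => ∏ k : Fin D, nm L L (q e k) := ⟨_, rfl⟩
  have ha0 : ∀ e, 0 ≤ a e := fun e => by rw [ha]; exact prod_nonneg fun k _ => pow_nonneg hL0 _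
  have hb0 : ∀ e, 0 ≤ b e := fun e => by rw [hb]; exact prod_nonneg fun k _ => nm_nonneg _ _ hL0 hL0 _
  obtain ⟨M, hM⟩ : ∃ M : ℝ, M = 1 + ∑ e, (a e + b e) := ⟨_, rfl⟩
  have hab : ∀ e, 0 ≤ a e + b e := fun e => add_nonneg (ha0 e) (hb0 e)
  have hM1 : 1 ≤ M := by
    rw [hM]
    have := sum_nonneg fun e (_ : e ∈ (univ : Finset (Fin N))) => hab e
    linarith
  have hMe : ∀ e, a e + b e ≤ M := by
    intro e
    rw [hM]
    have := single_le_sum (f := fun e => a e + b e) (fun e _ => hab e) (mem_univ e)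
    linarith
  have hM0 : 0 ≤ M := by linarith
  have hsC : 0 ≤ ∑ e, C e := sum_nonneg fun e _ => hC0 e
  refine ⟨M ^ N * (∑ e, C e) + 2 * M ^ N * Real.sqrt (l * D), by positivity, fun p hp => ?_⟩
  have hp0 : (0 : ℝ) < p := by exact_mod_cast hp.out.pos
  have hsp : 0 < Real.sqrt p := Real.sqrt_pos.2 hp0
  have e1 : am (GF (K := K) l D N p q) = ∏ e, am (g1 (K := K) l D p (q e)) := am_prod (fun e => g1 (K := K) l D p (q e))
  have e2 : ∀ e, |am (g1 (K := K) l D p (q e))| ≤ M := by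
    intro e
    have h2 : |am (g1 (K := K) l D p (q e))| ≤ a e := by
      apply am_abs
      intro x
      rw [ha, hL]
      exact g1_le l hl D hD p (q e) x
    have := hMe e
    have := hb0 e
    linarith
  have e3 : ∀ e, |h1 K l D p (q e)| ≤ M := by
    intro e
    have h2 : |h1 K l D p (q e)| ≤ b e := by
      rw [hb, hL]
      exact h1_le l hl D p (q e)
    have := hMe e
    have := ha0 e
    linarith
  rw [e1]
  unfold HM
  by_cases hgood : p ≠ l ∧ ¬ p ∣ D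
  · have h2 := prod_diff univ (fun e => am (g1 (K := K) l D p (q e))) (fun e => h1 K l D p (q e)) M hM1 (fun e _ => e2 e) (fun e _ => e3 e)
    refine h2.trans ?_
    rw [card_univ, Fintype.card_fin]
    have h3 : ∑ e, |am (g1 (K := K) l D p (q e)) - h1 K l D p (q e)| ≤ (∑ e, C e) / Real.sqrt p := by
      rw [sum_div]
      exact sum_le_sum fun e _ => hC e p hgood.1 hgood.2
    calc M ^ N * ∑ e, |am (g1 (K := K) l D p (q e)) - h1 K l D p (q e)| ≤ M ^ N * ((∑ e, C e) / Real.sqrt p) :=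
          mul_le_mul_of_nonneg_left h3 (by positivity)
      _ = M ^ N * (∑ e, C e) / Real.sqrt p := by ring
      _ ≤ _ := by
        apply div_le_div_of_nonneg_right _ hsp.le
        have : 0 ≤ 2 * M ^ N * Real.sqrt (l * D) := by positivity
        linarith
  · have hD0 : D ≠ 0 := by
      rintro rfl
      rw [Nat.coprime_zero_left] at hD
      exact hl.one_lt.ne' hD
    have hpl : p ≤ l * D := by
      by_cases h4 : p = l
      · rw [h4]
        exact Nat.le_mul_of_pos_right _ (by omega)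
      · have h5 : p ∣ D := by
          by_contra h6
          exact hgood ⟨h4, h6⟩
        exact (Nat.le_of_dvd (by omega) h5).trans (Nat.le_mul_of_pos_left _ hl.pos)
    have h5 : |∏ e, am (g1 (K := K) l D p (q e))| ≤ M ^ N := by
      rw [abs_prod]
      refine (prod_le_prod (fun e _ => abs_nonneg _) fun e _ => e2 e).trans (le_of_eq ?_)
      rw [prod_const, card_univ, Fintype.card_fin]
    have h6 : |∏ e, h1 K l D p (q e)| ≤ M ^ N := by
      rw [abs_prod]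
      refine (prod_le_prod (fun e _ => abs_nonneg _) fun e _ => e3 e).trans (le_of_eq ?_)
      rw [prod_const, card_univ, Fintype.card_fin]
    have h7 : Real.sqrt p ≤ Real.sqrt (l * D) := by
      apply Real.sqrt_le_sqrt
      exact_mod_cast hpl
    have h8 : |∏ e, am (g1 (K := K) l D p (q e)) - ∏ e, h1 K l D p (q e)| ≤ 2 * M ^ N := by
      refine (abs_sub _ _).trans ?_
      linarith
    rw [le_div_iff₀ hsp]
    calc |∏ e, am (g1 (K := K) l D p (q e)) - ∏ e, h1 K l D p (q e)| * Real.sqrt p ≤ 2 * M ^ N * Real.sqrt (l * D) :=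
          mul_le_mul h8 h7 hsp.le (by positivity)
      _ ≤ _ := by
        have : 0 ≤ M ^ N * ∑ e, C e := by positivity
        linarith

end

end Pool.Agent.N842.SQ
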