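import Pool.Agent.N842.ST.Gauss

/-!
# Moments of normal variables: sums and multiples
-/

set_option autoImplicit false

namespace Pool.Agent.N842.SQ

open Pool.Agent.N842.ST
open Finset MeasureTheory ProbabilityTheory
open Pool.Agent.Y57.FD.Mom (normal)
open scoped NNReal

/-- the moments of a normal variable with the variance `v` and the mean `η` -/
noncomputable def nm (v η : ℝ) (r : ℕ) : ℝ := ∑ i ∈ range (r + 1), (r.choose i : ℝ) * η ^ (r - i) * (normal i * v ^ (i / 2))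

lemma mu_eq (k : ℕ) (κ η : ℝ) (r : ℕ) : mu k κ η r = nm (k * κ) η r := rfl

lemma nm_gauss (v : ℝ≥0) (η : ℝ) (r : ℕ) : nm v η r = ∫ x, x ^ r ∂(gaussianReal η v) := (gauss_mom η v r).symm

lemma nm_nonneg (v η : ℝ) (hv : 0 ≤ v) (hη : 0 ≤ η) (r : ℕ) : 0 ≤ nm v η r := by
  unfold nm
  refine sum_nonneg fun i _ => ?_
  have := normal_nonneg i
  positivity

lemma nm_le (v η L : ℝ) (hv : 0 ≤ v) (hη : 0 ≤ η) (hvL : v ≤ L) (hηL : η ≤ L) (r : ℕ) : nm v η r ≤ nm L L r := by
  unfold nm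
  have hL : 0 ≤ L := hv.trans hvL
  refine sum_le_sum fun i _ => ?_
  have hn := normal_nonneg i
  apply mul_le_mul
  · exact mul_le_mul_of_nonneg_left (pow_le_pow_left₀ hη hηL _) (by positivity)
  · exact mul_le_mul_of_nonneg_left (pow_le_pow_left₀ hv hvL _) hn
  · positivity
  · positivity

lemma nm_zero (v η : ℝ) : nm v η 0 = 1 := by
  unfold nm
  simp [normal_zero]

/-- the constant zero -/
lemma nm_const (r : ℕ) : nm 0 0 r = 0 ^ r := by
  unfold nm
  rw [sum_range_succ, sum_eq_zero]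
  · rw [Nat.choose_self, Nat.sub_self, zero_add]
    rcases Nat.eq_zero_or_pos r with h | h
    · rw [h, normal_zero]
      simp
    · rcases Nat.eq_or_lt_of_le h with h1 | h1
      · rw [← h1]
        unfold normal
        simp
      · have h2 : r / 2 ≠ 0 := by omega
        have h3 : r ≠ 0 := by omega
        rw [zero_pow h2, zero_pow h3, mul_zero, mul_zero]
  · intro i hi
    rw [mem_range] at hi
    rw [zero_pow (by omega : r - i ≠ 0)]
    ring

/-- multiples -/
lemma nm_smul (g v η : ℝ) (r : ℕ) : nm (g ^ 2 * v) (g * η) r = g ^ r * nm v η r := by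
  unfold nm
  rw [mul_sum]
  refine sum_congr rfl fun i hi => ?_
  rw [mem_range] at hi
  unfold normal
  split_ifs with h
  · obtain ⟨j, hj⟩ := h
    have h1 : i / 2 = j := by omega
    rw [h1, mul_pow, mul_pow, ← pow_mul]
    have h2 : g ^ r = g ^ (r - i) * g ^ (2 * j) := by
      rw [← pow_add]
      congr 1
      omega
    rw [h2]
    ring
  · ring

/-- reflection -/
lemma nm_neg (v η : ℝ) (r : ℕ) : nm v (-η) r = (-1) ^ r * nm v η r := by
  have h := nm_smul (-1) v η r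
  rw [neg_one_sq, one_mul, neg_one_mul] at h
  exact h

/-- sums -/
lemma nm_add (v₁ v₂ η₁ η₂ : ℝ) (h₁ : 0 ≤ v₁) (h₂ : 0 ≤ v₂) (r : ℕ) :
    nm (v₁ + v₂) (η₁ + η₂) r = ∑ i ∈ range (r + 1), (r.choose i : ℝ) * (nm v₁ η₁ i * nm v₂ η₂ (r - i)) := by
  obtain ⟨v₁, rfl⟩ : ∃ w : ℝ≥0, v₁ = w := ⟨⟨v₁, h₁⟩, rfl⟩
  obtain ⟨v₂, rfl⟩ : ∃ w : ℝ≥0, v₂ = w := ⟨⟨v₂, h₂⟩, rfl⟩
  rw [← NNReal.coe_add, nm_gauss, ← gaussianReal_conv_gaussianReal]
  have hint : Integrable (fun x : ℝ => x ^ r) (gaussianReal η₁ v₁ ∗ gaussianReal η₂ v₂) := by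
    rw [gaussianReal_conv_gaussianReal]
    exact gauss_integrable _ _ r
  rw [integral_conv hint]
  have h1 : ∀ x : ℝ, ∫ y, (x + y) ^ r ∂(gaussianReal η₂ v₂) = ∑ i ∈ range (r + 1), (r.choose i : ℝ) * (x ^ i * nm v₂ η₂ (r - i)) := by
    intro x
    have e1 : (fun y : ℝ => (x + y) ^ r) = fun y => ∑ i ∈ range (r + 1), ((r.choose i : ℝ) * x ^ i) * y ^ (r - i) := by
      funext y
      rw [add_pow]
      exact sum_congr rfl fun i _ => by ring
    rw [e1, integral_finsetSum _ (fun i _ => (gauss_integrable _ _ _).const_mul _)]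
    refine sum_congr rfl fun i _ => ?_
    rw [integral_const_mul, nm_gauss, mul_assoc]
  simp only [h1]
  rw [integral_finsetSum _ (fun i _ => ((gauss_integrable _ _ _).mul_const _).const_mul _)]
  refine sum_congr rfl fun i _ => ?_
  rw [integral_const_mul, integral_mul_const, nm_gauss v₁]

end Pool.Agent.N842.SQ
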