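import Pool.Agent.N842.SQ.Amom
import Pool.Agent.N842.ST.Sep

/-!
# The polynomials which are not separable, and the local means, over finite fields
-/

set_option autoImplicit false

namespace Pool.Agent.N842.SQ

open Pool.Agent.N842.ST
open Finset Polynomial

attribute [local instance] exFin

theorem weilS (l : ℕ) (hl : l.Prime) (D : ℕ) (hD : Nat.Coprime D l) (E : Type) [Field E] [Fintype E] (u : Fin D → E) (k : ℕ) (hk : k ≠ 0) :
    |S E l k (fp E u)| ≤ ((l * (D + l + 1) : ℕ) : ℝ) * Real.sqrt (Fintype.card E) ^ k := by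
  classical
  by_cases h : l ∣ Fintype.card E ^ k - 1
  · have h1 := weil_nu (F := Ex E k) l hl (by rw [card_ex E k hk]; exact h) ((fp E u).map (algebraMap _ _))
      ((fp_monic E u).map _) (by rw [(fp_monic E u).natDegree_map, fp_natDegree]; exact hD)
    rw [(fp_monic E u).natDegree_map, fp_natDegree, card_ex E k hk] at h1
    have h2 : Real.sqrt ((Fintype.card E ^ k : ℕ) : ℝ) = Real.sqrt (Fintype.card E) ^ k := by
      push_cast
      rw [s_pow, mul_comm, pow_mul, Real.sqrt_sq (by positivity)]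
    rw [h2] at h1
    unfold S
    refine le_trans (le_of_eq ?_) h1
    congr 1
    refine sum_congr rfl fun y _ => ?_
    rw [eval_map_algebraMap]
  · rw [S_zero E hl k hk h, abs_zero]
    positivity

section
variable (E : Type) [Field E] [Fintype E]

omit [Fintype E] in
/-- there are few polynomials which are not separable -/
lemma bad_fiber {d : ℕ} (hpd : ((d + 1 : ℕ) : E) ≠ 0) (w : Fin d → E) :
    {z : E | ¬ (fp E (D := d + 1) (Fin.cons z w)).Separable}.ncard ≤ d + 1 := by
  classical
  obtain ⟨h, hh⟩ : ∃ h : E[X], h = fp E (D := d + 1) (Fin.cons 0 w) := ⟨_, rfl⟩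
  have hz : ∀ z : E, fp E (D := d + 1) (Fin.cons z w) = h + C z := by
    intro z
    rw [hh]
    unfold fp low
    rw [Fin.sum_univ_succ, Fin.sum_univ_succ (f := fun i => C ((Fin.cons 0 w : Fin (d + 1) → E) i) * X ^ (i : ℕ))]
    simp only [Fin.cons_zero, Fin.cons_succ, Fin.val_zero, pow_zero, mul_one, C_0, zero_add]
    ring
  have hd : ∀ z : E, (fp E (D := d + 1) (Fin.cons z w)).derivative = h.derivative := by
    intro z
    rw [hz, derivative_add, derivative_C, add_zero]
  have hd0 : h.derivative ≠ 0 := by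
    intro h0
    have h1 := congrArg (fun f => f.coeff d) h0
    simp only [coeff_derivative, coeff_zero] at h1
    have h2 : h.coeff (d + 1) = 1 := by
      have h3 := fp_monic E (D := d + 1) (Fin.cons 0 w)
      rw [← hh] at h3
      have h4 := h3.coeff_natDegree
      have h5 := fp_natDegree E (D := d + 1) (Fin.cons 0 w)
      rw [← hh] at h5
      rwa [h5] at h4
    rw [h2, one_mul] at h1
    apply hpd
    push_cast
    exact h1
  have hdeg : h.derivative.natDegree ≤ d + 1 := by
    have h1 := natDegree_derivative_le h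
    have h5 := fp_natDegree E (D := d + 1) (Fin.cons 0 w)
    rw [← hh] at h5
    omega
  obtain ⟨R, hR⟩ : ∃ R : Finset (AlgebraicClosure E), R = (h.derivative.aroots (AlgebraicClosure E)).toFinset := ⟨_, rfl⟩
  have hRc : R.card ≤ d + 1 := by
    rw [hR]
    refine (Multiset.toFinset_card_le _).trans ?_
    refine (card_roots' _).trans ?_
    refine (natDegree_map_le).trans hdeg
  have hsub : (algebraMap E (AlgebraicClosure E)) '' {z : E | ¬ (fp E (D := d + 1) (Fin.cons z w)).Separable} ⊆
      ((R.image (fun β => -(aeval β h)) : Finset (AlgebraicClosure E)) : Set (AlgebraicClosure E)) := by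
    rintro _ ⟨z, hz1, rfl⟩
    rw [Set.mem_ofPred_eq] at hz1
    unfold Separable at hz1
    rw [isCoprime_iff_aeval_ne_zero_of_isAlgClosed E (AlgebraicClosure E)] at hz1
    push Not at hz1
    obtain ⟨β, h1, h2⟩ := hz1
    rw [hd] at h2
    rw [hz, map_add, aeval_C] at h1
    rw [coe_image]
    refine ⟨β, ?_, ?_⟩
    · rw [hR, mem_coe, Multiset.mem_toFinset, mem_aroots]
      exact ⟨hd0, h2⟩
    · exact (eq_neg_of_add_eq_zero_right h1).symm
  rw [← Set.ncard_image_of_injective _ (algebraMap E (AlgebraicClosure E)).injective]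
  refine (Set.ncard_le_ncard hsub (finite_toSet _)).trans ?_
  rw [Set.ncard_coe_finset]
  exact card_image_le.trans hRc

open Classical in
lemma bad_card {d : ℕ} (hpd : ((d + 1 : ℕ) : E) ≠ 0) :
    ((univ : Finset (Fin (d + 1) → E)).filter (fun u => ¬ (fp E u).Separable)).card ≤ (d + 1) * Fintype.card E ^ d := by
  have h1 : ((univ : Finset (Fin (d + 1) → E)).filter (fun u => ¬ (fp E u).Separable)).card =
      ∑ w : Fin d → E, ((univ : Finset E).filter (fun z => ¬ (fp E (D := d + 1) (Fin.cons z w)).Separable)).card := by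
    rw [card_filter]
    simp only [card_filter]
    rw [sum_comm, ← Fintype.sum_prod_type' (f := fun (z : E) (w : Fin d → E) =>
      if ¬ (fp E (D := d + 1) (Fin.cons z w)).Separable then 1 else 0)]
    refine (Fintype.sum_equiv (Fin.consEquiv (fun _ : Fin (d + 1) => E)) _ _ ?_).symm
    intro x
    rfl
  rw [h1]
  have h2 : ∀ w : Fin d → E,
      ((univ : Finset E).filter (fun z => ¬ (fp E (D := d + 1) (Fin.cons z w)).Separable)).card ≤ d + 1 := by
    intro w
    refine le_trans (le_of_eq ?_) (bad_fiber E hpd w)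
    rw [← Set.ncard_coe_finset]
    congr 1
    ext z
    simp
  refine (sum_le_sum fun w _ => h2 w).trans (le_of_eq ?_)
  rw [sum_const, card_univ, Fintype.card_pi_const, smul_eq_mul]
  ring

end

open Classical in
/-- the normalised power sums; `0` if the curve is not smooth -/
noncomputable def A (l D k : ℕ) (E : Type) [Field E] [Fintype E] (u : Fin D → E) : ℝ :=
  if (l : E) ≠ 0 ∧ (fp E u).Separable then S E l k (fp E u) / Real.sqrt (Fintype.card E) ^ k else 0

lemma A_le (l : ℕ) (hl : l.Prime) (D : ℕ) (hD : Nat.Coprime D l) (k : ℕ) (hk : k ≠ 0) (E : Type) [Field E] [Fintype E] (u : Fin D → E) :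
    |A l D k E u| ≤ ((l * (D + l + 1) : ℕ) : ℝ) := by
  unfold A
  split_ifs with h
  · have hs := one_le_s E
    have h2 := weilS l hl D hD E u k hk
    have hpos : (0 : ℝ) < Real.sqrt (Fintype.card E) ^ k := by positivity
    rw [abs_div, abs_of_pos hpos, div_le_iff₀ hpos]
    exact h2
  · rw [abs_zero]
    positivity

/-- **the local means** -/
theorem local_mean (l : ℕ) (hl : l.Prime) (D : ℕ) (hD : Nat.Coprime D l) {n : ℕ} (r : Fin n → ℕ)
    (hr : ∑ j : Fin n, (j + 1 : ℕ) * r j ≤ D) : ∃ C : ℝ, 0 ≤ C ∧ ∀ (E : Type) [Field E] [Fintype E], (l : E) ≠ 0 → (D : E) ≠ 0 →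
      |av E (fun u : Fin D → E => ∏ j : Fin n, A l D (j + 1) E u ^ r j) - PM l (Fintype.card E) r| ≤ C / Real.sqrt (Fintype.card E) := by
  classical
  obtain ⟨B, hB⟩ : ∃ B : ℝ, B = ((l * (D + l + 1) : ℕ) : ℝ) := ⟨_, rfl⟩
  have hB0 : 0 ≤ B := by rw [hB]; positivity
  obtain ⟨C, hC0, hC⟩ := amom l hl r D hr B hB0 (fun E _ _ u k hk => by rw [hB]; exact weilS l hl D hD E u k hk)
  obtain ⟨R, hR⟩ : ∃ R : ℕ, R = ∑ j, r j := ⟨_, rfl⟩
  have hD0 : D ≠ 0 := by
    rintro rfl
    rw [Nat.coprime_zero_left] at hD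
    exact hl.one_lt.ne' hD
  obtain ⟨d, rfl⟩ : ∃ d, D = d + 1 := ⟨D - 1, by omega⟩
  refine ⟨C + (d + 1) * B ^ R, by positivity, fun E _ _ hlE hDE => ?_⟩
  have hs := one_le_s E
  have hs0 : 0 < Real.sqrt (Fintype.card E) := by linarith
  have hp0 : (0 : ℝ) < (Fintype.card E : ℝ) := by exact_mod_cast Fintype.card_pos (α := E)
  have hp1 : (1 : ℝ) ≤ (Fintype.card E : ℝ) := by exact_mod_cast Fintype.card_pos (α := E)
  have hsp : Real.sqrt (Fintype.card E) ≤ (Fintype.card E : ℝ) := by
    rw [Real.sqrt_le_left hp0.le]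
    nlinarith
  by_cases h0 : ∀ j, r j = 0
  · have e1 : PM l (Fintype.card E) r = 1 := by
      unfold PM
      exact prod_eq_one fun j _ => by rw [h0 j, mu_zero]
    have e2 : av E (fun u : Fin (d + 1) → E => ∏ j : Fin n, A l (d + 1) (j + 1) E u ^ r j) = 1 := by
      have e3 : (fun u : Fin (d + 1) → E => ∏ j : Fin n, A l (d + 1) (j + 1) E u ^ r j) = fun _ => 1 := by
        funext m
        exact prod_eq_one fun j _ => by rw [h0 j, pow_zero]
      rw [e3]
      unfold av
      rw [sum_const, card_univ, Fintype.card_pi_const, nsmul_eq_mul, mul_one]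
      push_cast
      exact div_self (by positivity)
    rw [e1, e2, sub_self, abs_zero]
    positivity
  · obtain ⟨Φ, hΦ⟩ : ∃ Φ : (Fin (d + 1) → E) → ℝ, Φ = fun u => ∏ j : Fin n, (S E l (j + 1) (fp E u) / Real.sqrt (Fintype.card E) ^ ((j : ℕ) + 1)) ^ r j :=
      ⟨_, rfl⟩
    have h1 := hC E
    rw [← hΦ] at h1
    have hΦB : ∀ u, |Φ u| ≤ B ^ R := by
      intro u
      rw [hΦ, hR]
      show |∏ j : Fin n, (S E l (j + 1) (fp E u) / Real.sqrt (Fintype.card E) ^ ((j : ℕ) + 1)) ^ r j| ≤ _
      rw [abs_prod, ← prod_pow_eq_pow_sum]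
      apply prod_le_prod (fun j _ => abs_nonneg _)
      intro j _
      rw [abs_pow]
      apply pow_le_pow_left₀ (abs_nonneg _)
      have hpos : (0 : ℝ) < Real.sqrt (Fintype.card E) ^ ((j : ℕ) + 1) := by positivity
      rw [abs_div, abs_of_pos hpos, div_le_iff₀ hpos, hB]
      exact weilS l hl (d + 1) hD E u (j + 1) (by omega)
    have h2 : av E (fun u : Fin (d + 1) → E => ∏ j : Fin n, A l (d + 1) (j + 1) E u ^ r j) = av E (fun u => if (fp E u).Separable then Φ u else 0) := by
      congr 1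
      funext u
      unfold A
      by_cases h3 : (fp E u).Separable
      · simp only [if_pos (show (l : E) ≠ 0 ∧ (fp E u).Separable from ⟨hlE, h3⟩), if_pos h3]
        rw [hΦ]
      · simp only [if_neg (show ¬ ((l : E) ≠ 0 ∧ (fp E u).Separable) from fun h => h3 h.2), if_neg h3]
        push Not at h0
        obtain ⟨j, hj⟩ := h0
        exact prod_eq_zero (mem_univ j) (zero_pow hj)
    have h3 : av E (fun u => if (fp E u).Separable then Φ u else 0) =
        av E Φ - (∑ u ∈ (univ : Finset (Fin (d + 1) → E)).filter (fun u => ¬ (fp E u).Separable), Φ u) / (Fintype.card E : ℝ) ^ (d + 1) := by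
      unfold av
      rw [← sub_div]
      congr 1
      rw [← sum_filter_add_sum_filter_not univ (fun u => (fp E u).Separable) Φ, add_sub_cancel_right, sum_filter]
    have h4 : |(∑ u ∈ (univ : Finset (Fin (d + 1) → E)).filter (fun u => ¬ (fp E u).Separable), Φ u) / (Fintype.card E : ℝ) ^ (d + 1)| ≤
        (d + 1) * B ^ R / Real.sqrt (Fintype.card E) := by
      rw [abs_div, abs_of_pos (by positivity : (0 : ℝ) < (Fintype.card E : ℝ) ^ (d + 1)), div_le_div_iff₀ (by positivity) hs0]
      have h5 : |∑ u ∈ (univ : Finset (Fin (d + 1) → E)).filter (fun u => ¬ (fp E u).Separable), Φ u| ≤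
          ((d + 1) * (Fintype.card E : ℝ) ^ d) * B ^ R := by
        refine (abs_sum_le_sum_abs _ _).trans ((sum_le_sum fun u _ => hΦB u).trans ?_)
        rw [sum_const, nsmul_eq_mul]
        apply mul_le_mul_of_nonneg_right _ (by positivity)
        exact_mod_cast bad_card E hDE
      calc |∑ u ∈ (univ : Finset (Fin (d + 1) → E)).filter (fun u => ¬ (fp E u).Separable), Φ u| * Real.sqrt (Fintype.card E) ≤
          (((d + 1) * (Fintype.card E : ℝ) ^ d) * B ^ R) * (Fintype.card E : ℝ) := mul_le_mul h5 hsp hs0.le (by positivity)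
        _ = (d + 1) * B ^ R * (Fintype.card E : ℝ) ^ (d + 1) := by
            rw [pow_succ]
            ring
    rw [h2, h3]
    obtain ⟨Y, hY⟩ : ∃ Y : ℝ, Y = (∑ u ∈ (univ : Finset (Fin (d + 1) → E)).filter (fun u => ¬ (fp E u).Separable), Φ u) / (Fintype.card E : ℝ) ^ (d + 1) :=
      ⟨_, rfl⟩
    rw [← hY] at h4 ⊢
    have h5 : |av E Φ - Y - PM l (Fintype.card E) r| ≤ |av E Φ - PM l (Fintype.card E) r| + |Y| := by
      have := abs_sub (av E Φ - PM l (Fintype.card E) r) Y
      rwa [show av E Φ - PM l (Fintype.card E) r - Y = av E Φ - Y - PM l (Fintype.card E) r by ring] at this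
    have h6 : |av E Φ - PM l (Fintype.card E) r| ≤ C / Real.sqrt (Fintype.card E) := h1
    have h7 : (C + (d + 1) * B ^ R) / Real.sqrt (Fintype.card E) = C / Real.sqrt (Fintype.card E) + (d + 1) * B ^ R / Real.sqrt (Fintype.card E) := by ring
    rw [h7]
    linarith

end Pool.Agent.N842.SQ
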