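import Pool.Agent.N842.SQ.Nm

/-!
# Sums of independent vectors
-/

set_option autoImplicit false

namespace Pool.Agent.N842.SQ

open Finset

/-- the mean over a finite type -/
noncomputable def am {Ω : Type} [Fintype Ω] (F : Ω → ℝ) : ℝ := (∑ x, F x) / (Fintype.card Ω : ℝ)

lemma am_abs {Ω : Type} [Fintype Ω] [Nonempty Ω] (F : Ω → ℝ) (M : ℝ) (hF : ∀ x, |F x| ≤ M) : |am F| ≤ M := by
  have h0 : (0 : ℝ) < Fintype.card Ω := by exact_mod_cast Fintype.card_pos
  unfold am
  rw [abs_div, abs_of_pos h0, div_le_iff₀ h0]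
  refine (abs_sum_le_sum_abs _ _).trans ((sum_le_sum fun x _ => hF x).trans (le_of_eq ?_))
  rw [sum_const, card_univ, nsmul_eq_mul, mul_comm]

lemma am_const {Ω : Type} [Fintype Ω] [Nonempty Ω] (c : ℝ) : am (fun _ : Ω => c) = c := by
  have h0 : (0 : ℝ) < Fintype.card Ω := by exact_mod_cast Fintype.card_pos
  unfold am
  rw [sum_const, card_univ, nsmul_eq_mul]
  field_simp

lemma am_sum {Ω ι : Type} [Fintype Ω] (s : Finset ι) (c : ι → ℝ) (F : ι → Ω → ℝ) :
    am (fun x => ∑ i ∈ s, c i * F i x) = ∑ i ∈ s, c i * am (F i) := by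
  unfold am
  rw [sum_comm, sum_div]
  refine sum_congr rfl fun i _ => ?_
  rw [← mul_sum, mul_div_assoc]

/-- the product of functions of different coordinates -/
lemma am_indep {V : Type} [Fintype V] [DecidableEq V] (Ω : V → Type) [∀ v, Fintype (Ω v)] [∀ v, Nonempty (Ω v)] (v : V)
    (F : (∀ w, Ω w) → ℝ) (hF : ∀ x a, F (Function.update x v a) = F x) (G : Ω v → ℝ) :
    am (fun x : ∀ w, Ω w => G (x v) * F x) = am G * am F := by
  have hv : (0 : ℝ) < Fintype.card (Ω v) := by exact_mod_cast Fintype.card_pos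
  have hV : (0 : ℝ) < Fintype.card (∀ w, Ω w) := by exact_mod_cast Fintype.card_pos
  have h1 : ∑ z : Ω v × (∀ w, Ω w), G (z.2 v) * F z.2 = ∑ z : Ω v × (∀ w, Ω w), G z.1 * F z.2 := by
    have hinv : Function.Involutive (fun z : Ω v × (∀ w, Ω w) => ((z.2 v, Function.update z.2 v z.1) : Ω v × (∀ w, Ω w))) := by
      rintro ⟨a, x⟩
      simp
    refine Fintype.sum_equiv hinv.toPerm _ _ ?_
    rintro ⟨a, x⟩
    show G (x v) * F x = G (x v) * F (Function.update x v a)
    rw [hF]
  rw [Fintype.sum_prod_type, Fintype.sum_prod_type] at h1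
  dsimp only at h1
  rw [sum_const, card_univ, nsmul_eq_mul] at h1
  have h2 : ∑ a : Ω v, ∑ x : (∀ w, Ω w), G a * F x = (∑ a, G a) * ∑ x, F x := by
    rw [sum_mul]
    exact sum_congr rfl fun a _ => (mul_sum _ _ _).symm
  rw [h2] at h1
  unfold am
  rw [div_mul_div_comm, ← h1]
  field_simp

/-- **the moments of sums of independent vectors** -/
theorem sum_indep {n : ℕ} (q₀ : Fin n → ℕ) (B : ℝ) (hB : 1 ≤ B) (N : ℕ) : ∃ C : ℝ, 0 ≤ C ∧
    ∀ (V : Type) [Fintype V] [DecidableEq V] (Ω : V → Type) [∀ v, Fintype (Ω v)] [∀ v, Nonempty (Ω v)] (X : ∀ v, Ω v → Fin n → ℝ)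
      (vr mn : V → Fin n → ℝ) (ε : ℝ), 0 ≤ ε → (∀ v i, 0 ≤ vr v i ∧ vr v i ≤ B ∧ 0 ≤ mn v i ∧ mn v i ≤ B) → (∀ v x i, |X v x i| ≤ B) →
      (∀ v, ∀ q : Fin n → ℕ, (∀ i, q i ≤ q₀ i) → |am (fun x : Ω v => ∏ i, X v x i ^ q i) - ∏ i, nm (vr v i) (mn v i) (q i)| ≤ ε) →
      ∀ s : Finset V, s.card ≤ N → ∀ q : Fin n → ℕ, (∀ i, q i ≤ q₀ i) →
        |am (fun x : ∀ v, Ω v => ∏ i, (∑ v ∈ s, X v (x v) i) ^ q i) - ∏ i, nm (∑ v ∈ s, vr v i) (∑ v ∈ s, mn v i) (q i)| ≤ C * ε := by
  classical
  induction N with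
  | zero =>
    refine ⟨0, le_rfl, fun V _ _ Ω _ _ X vr mn ε hε hvm hX hq₀ s hs q hq => ?_⟩
    have hs0 : s = ∅ := card_eq_zero.1 (by omega)
    rw [hs0]
    simp only [sum_empty, nm_const]
    rw [am_const, sub_self, abs_zero, zero_mul]
  | succ N ih =>
    obtain ⟨C, hC0, hC⟩ := ih
    obtain ⟨Q, hQ⟩ : ∃ Q : Finset (Fin n → ℕ), Q = Fintype.piFinset (fun i => range (q₀ i + 1)) := ⟨_, rfl⟩
    obtain ⟨L, hL⟩ : ∃ L : ℝ, L = ∑ q ∈ Q, ∏ i, nm ((N + 1) * B) ((N + 1) * B) (q i) := ⟨_, rfl⟩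
    have hNB : (0 : ℝ) ≤ (N + 1) * B := by positivity
    have hL0 : 0 ≤ L := by
      rw [hL]
      exact sum_nonneg fun q _ => prod_nonneg fun i _ => nm_nonneg _ _ hNB hNB _
    obtain ⟨S, hS⟩ : ∃ S : ℕ, S = ∑ i, q₀ i := ⟨_, rfl⟩
    refine ⟨C + Q.card * (2 ^ S * (B ^ S * C + L)), by positivity, fun V _ _ Ω _ _ X vr mn ε hε hvm hX hq₀ s hs q hq => ?_⟩
    by_cases hsN : s.card ≤ N
    · refine (hC V Ω X vr mn ε hε hvm hX hq₀ s hsN q hq).trans ?_
      apply mul_le_mul_of_nonneg_right _ hε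
      have : 0 ≤ (Q.card : ℝ) * (2 ^ S * (B ^ S * C + L)) := by positivity
      linarith
    · obtain ⟨v, s', hv, hvs, hs'⟩ := Finset.card_eq_succ.1 (show s.card = N + 1 by omega)
      have hIH := hC V Ω X vr mn ε hε hvm hX hq₀ s' hs'.le
      rw [← hvs]
      obtain ⟨T, hT⟩ : ∃ T : (∀ v, Ω v) → Fin n → ℝ, T = fun x i => ∑ w ∈ s', X w (x w) i := ⟨_, rfl⟩
      have hTe : ∀ x i, ∑ w ∈ s', X w (x w) i = T x i := fun x i => by rw [hT]
      have hTu : ∀ x a, T (Function.update x v a) = T x := by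
        intro x a
        rw [hT]
        funext i
        refine sum_congr rfl fun w hw => ?_
        rw [Function.update_of_ne (fun h => hv (by rw [← h]; exact hw))]
      simp only [hTe] at hIH
      -- the expansions
      obtain ⟨J, hJ⟩ : ∃ J : Finset (Fin n → ℕ), J = Fintype.piFinset (fun i => range (q i + 1)) := ⟨_, rfl⟩
      have hJm : ∀ j, j ∈ J ↔ ∀ i, j i ≤ q i := by
        intro j
        rw [hJ, Fintype.mem_piFinset]
        exact forall_congr' fun i => by rw [mem_range]; omega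
      have hJQ : J.card ≤ Q.card := by
        apply card_le_card
        intro j hj
        rw [hJm] at hj
        rw [hQ, Fintype.mem_piFinset]
        intro i
        rw [mem_range]
        have h1 := hj i
        have h2 := hq i
        omega
      have e1 : (fun x : ∀ v, Ω v => ∏ i, (∑ w ∈ insert v s', X w (x w) i) ^ q i) =
          fun x => ∑ j ∈ J, (∏ i, ((q i).choose (j i) : ℝ)) * ((∏ i, X v (x v) i ^ j i) * ∏ i, T x i ^ (q i - j i)) := by
        funext x
        have e2 : ∀ i, (∑ w ∈ insert v s', X w (x w) i) ^ q i =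
            ∑ m ∈ range (q i + 1), ((q i).choose m : ℝ) * (X v (x v) i ^ m * T x i ^ (q i - m)) := by
          intro i
          rw [sum_insert hv, hTe, add_pow]
          exact sum_congr rfl fun m _ => by ring
        rw [prod_congr rfl (fun i _ => e2 i), prod_univ_sum (fun i => range (q i + 1))
          (fun i m => ((q i).choose m : ℝ) * (X v (x v) i ^ m * T x i ^ (q i - m))), ← hJ]
        refine sum_congr rfl fun j _ => ?_
        rw [prod_mul_distrib, prod_mul_distrib]
      have e3 : ∏ i, nm (∑ w ∈ insert v s', vr w i) (∑ w ∈ insert v s', mn w i) (q i) =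
          ∑ j ∈ J, (∏ i, ((q i).choose (j i) : ℝ)) * ((∏ i, nm (vr v i) (mn v i) (j i)) *
            ∏ i, nm (∑ w ∈ s', vr w i) (∑ w ∈ s', mn w i) (q i - j i)) := by
        have e2 : ∀ i, nm (∑ w ∈ insert v s', vr w i) (∑ w ∈ insert v s', mn w i) (q i) =
            ∑ m ∈ range (q i + 1), ((q i).choose m : ℝ) * (nm (vr v i) (mn v i) m * nm (∑ w ∈ s', vr w i) (∑ w ∈ s', mn w i) (q i - m)) := by
          intro i
          rw [sum_insert hv, sum_insert hv]
          exact nm_add _ _ _ _ (hvm v i).1 (sum_nonneg fun w _ => (hvm w i).1) _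
        rw [prod_congr rfl (fun i _ => e2 i), prod_univ_sum (fun i => range (q i + 1))
          (fun i m => ((q i).choose m : ℝ) * (nm (vr v i) (mn v i) m * nm (∑ w ∈ s', vr w i) (∑ w ∈ s', mn w i) (q i - m))), ← hJ]
        refine sum_congr rfl fun j _ => ?_
        rw [prod_mul_distrib, prod_mul_distrib]
      rw [e1, e3, am_sum J (fun j => ∏ i, ((q i).choose (j i) : ℝ)) (fun j x => (∏ i, X v (x v) i ^ j i) * ∏ i, T x i ^ (q i - j i)),
        ← sum_sub_distrib]
      have hterm : ∀ j ∈ J, |(∏ i, ((q i).choose (j i) : ℝ)) * am (fun x : ∀ v, Ω v => (∏ i, X v (x v) i ^ j i) * ∏ i, T x i ^ (q i - j i)) -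
          (∏ i, ((q i).choose (j i) : ℝ)) * ((∏ i, nm (vr v i) (mn v i) (j i)) *
            ∏ i, nm (∑ w ∈ s', vr w i) (∑ w ∈ s', mn w i) (q i - j i))| ≤ 2 ^ S * (B ^ S * C + L) * ε := by
        intro j hj
        rw [hJm] at hj
        have hjq : ∀ i, j i ≤ q₀ i := fun i => (hj i).trans (hq i)
        have hjq' : ∀ i, q i - j i ≤ q₀ i := fun i => (Nat.sub_le _ _).trans (hq i)
        rw [am_indep Ω v (fun x => ∏ i, T x i ^ (q i - j i)) (fun x a => by rw [hTu]) (fun y => ∏ i, X v y i ^ j i), ← mul_sub, abs_mul]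
        have a1 : |∏ i, ((q i).choose (j i) : ℝ)| ≤ 2 ^ S := by
          rw [abs_prod, hS, ← prod_pow_eq_pow_sum]
          apply prod_le_prod (fun i _ => abs_nonneg _)
          intro i _
          rw [Nat.abs_cast]
          have h1 : (q i).choose (j i) ≤ 2 ^ q i := Nat.choose_le_two_pow _ _
          have h2 : 2 ^ q i ≤ 2 ^ q₀ i := Nat.pow_le_pow_right (by norm_num) (hq i)
          exact_mod_cast h1.trans h2
        have a2 := hq₀ v j hjq
        have a3 := hIH (fun i => q i - j i) hjq'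
        obtain ⟨a, ha⟩ : ∃ a : ℝ, a = am (fun x : Ω v => ∏ i, X v x i ^ j i) := ⟨_, rfl⟩
        obtain ⟨a', ha'⟩ : ∃ a' : ℝ, a' = ∏ i, nm (vr v i) (mn v i) (j i) := ⟨_, rfl⟩
        obtain ⟨b, hb⟩ : ∃ b : ℝ, b = am (fun x : ∀ v, Ω v => ∏ i, T x i ^ (q i - j i)) := ⟨_, rfl⟩
        obtain ⟨b', hb'⟩ : ∃ b' : ℝ, b' = ∏ i, nm (∑ w ∈ s', vr w i) (∑ w ∈ s', mn w i) (q i - j i) := ⟨_, rfl⟩
        have a4 : |a| ≤ B ^ S := by
          rw [ha]
          apply am_abs
          intro x
          rw [abs_prod]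
          calc ∏ i, |X v x i ^ j i| ≤ ∏ i, B ^ q₀ i := by
                apply prod_le_prod (fun i _ => abs_nonneg _)
                intro i _
                rw [abs_pow]
                exact (pow_le_pow_left₀ (abs_nonneg _) (hX v x i) _).trans (pow_le_pow_right₀ hB (hjq i))
            _ = B ^ S := by rw [prod_pow_eq_pow_sum, hS]
        have a5 : |b'| ≤ L := by
          have hm : (fun i => q i - j i) ∈ Q := by
            rw [hQ, Fintype.mem_piFinset]
            intro i
            rw [mem_range]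
            have := hjq' i
            omega
          have hbnd : ∀ (f : V → Fin n → ℝ), (∀ w i, f w i ≤ B) → ∀ i, ∑ w ∈ s', f w i ≤ (N + 1) * B := by
            intro f hf i
            refine (sum_le_sum (g := fun _ => B) fun w _ => hf w i).trans ?_
            rw [sum_const, nsmul_eq_mul, hs']
            nlinarith
          have h1 : b' ≤ ∏ i, nm ((N + 1) * B) ((N + 1) * B) (q i - j i) := by
            rw [hb']
            apply prod_le_prod
            · intro i _
              exact nm_nonneg _ _ (sum_nonneg fun w _ => (hvm w i).1) (sum_nonneg fun w _ => (hvm w i).2.2.1) _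
            · intro i _
              exact nm_le _ _ _ (sum_nonneg fun w _ => (hvm w i).1) (sum_nonneg fun w _ => (hvm w i).2.2.1)
                (hbnd vr (fun w i => (hvm w i).2.1) i) (hbnd mn (fun w i => (hvm w i).2.2.2) i) _
          have h2 : 0 ≤ b' := by
            rw [hb']
            exact prod_nonneg fun i _ => nm_nonneg _ _ (sum_nonneg fun w _ => (hvm w i).1) (sum_nonneg fun w _ => (hvm w i).2.2.1) _
          have h3 := single_le_sum (f := fun q : Fin n → ℕ => ∏ i, nm ((N + 1) * B) ((N + 1) * B) (q i))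
            (fun q _ => prod_nonneg fun i _ => nm_nonneg _ _ hNB hNB _) hm
          rw [abs_of_nonneg h2, hL]
          exact h1.trans h3
        rw [← ha, ← ha'] at a2
        rw [← hb, ← hb'] at a3
        rw [← ha, ← ha', ← hb, ← hb']
        have a6 : |a * b - a' * b'| ≤ (B ^ S * C + L) * ε := by
          have h1 : a * b - a' * b' = a * (b - b') + (a - a') * b' := by ring
          rw [h1]
          refine (abs_add_le _ _).trans ?_
          rw [abs_mul, abs_mul]
          have h2 : |a| * |b - b'| ≤ B ^ S * (C * ε) := mul_le_mul a4 a3 (abs_nonneg _) (by positivity)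
          have h3 : |a - a'| * |b'| ≤ ε * L := mul_le_mul a2 a5 (abs_nonneg _) hε
          nlinarith
        calc |∏ i, ((q i).choose (j i) : ℝ)| * |a * b - a' * b'| ≤ 2 ^ S * ((B ^ S * C + L) * ε) :=
              mul_le_mul a1 a6 (abs_nonneg _) (by positivity)
          _ = _ := by ring
      refine (abs_sum_le_sum_abs _ _).trans ((sum_le_sum hterm).trans ?_)
      rw [sum_const, nsmul_eq_mul]
      have h1 : (J.card : ℝ) ≤ Q.card := by exact_mod_cast hJQ
      have h2 : 0 ≤ 2 ^ S * (B ^ S * C + L) * ε := by positivity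
      have h3 : (J.card : ℝ) * (2 ^ S * (B ^ S * C + L) * ε) ≤ Q.card * (2 ^ S * (B ^ S * C + L) * ε) := mul_le_mul_of_nonneg_right h1 h2
      have h4 : 0 ≤ C * ε := by positivity
      linarith

end Pool.Agent.N842.SQ
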