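import Pool.Agent.N842.SQ.Vp

/-!
# The reduction of the coefficients modulo all prime ideals above a prime number
-/

set_option autoImplicit false

namespace Pool.Agent.N842.SQ

open Finset NumberField IsDedekindDomain
open Pool.Agent.TH894.NE (mean box mem_box)

attribute [local instance] rsFin vpFin

section
variable {K : Type} [Field K] [NumberField K]

/-- decidable equality -/
@[reducible] noncomputable def vpDec (p : ℕ) : DecidableEq (Vp K p) := Classical.decEq _

attribute [local instance] vpDec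

/-- the prime field in the residue fields -/
noncomputable def ct {p : ℕ} [Fact p.Prime] (v : Vp K p) : ZMod p →+* Rs v.1 := ZMod.castHom (dvd_refl p) (Rs v.1)

/-- the reduction of the coefficients modulo all prime ideals above `p` -/
noncomputable def Th {g N D : ℕ} (ω : Fin g → 𝓞 K) (p : ℕ) [Fact p.Prime] :
    (Fin (N * D * g) → ZMod p) →+ (Fin N → (v : Vp K p) → Fin D → Rs v.1) where
  toFun u c v i := ∑ j, ct v (u (finProdFinEquiv (finProdFinEquiv (c, i), j))) * rh v.1 (ω j)
  map_zero' := by
    funext c v i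
    simp
  map_add' u w := by
    funext c v i
    simp [add_mul, sum_add_distrib]

lemma th_surj {g N D : ℕ} (ω : Fin g → 𝓞 K) (hω : Submodule.span ℤ (Set.range ω) = ⊤) (p : ℕ) [hp : Fact p.Prime] :
    Function.Surjective (Th (N := N) (D := D) ω p) := by
  intro x
  have h1 : ∀ (c : Fin N) (i : Fin D), ∃ r : 𝓞 K, ∀ v : Vp K p, rh v.1 r = x c v i := by
    intro c i
    refine Ideal.pi_quotient_surjective (I := fun v : Vp K p => v.1.asIdeal) ?_ (fun v => x c v i)
    intro v w hvw
    exact v.1.isCoprime_of_ne w.1 (fun h => hvw (Subtype.ext h))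
  choose r hr using h1
  have h2 : ∀ (c : Fin N) (i : Fin D), ∃ a : Fin g → ℤ, ∑ j, a j • ω j = r c i := fun c i =>
    (Submodule.mem_span_range_iff_exists_fun ℤ).1 (by rw [hω]; exact Submodule.mem_top)
  choose a ha using h2
  refine ⟨fun k => (a (finProdFinEquiv.symm (finProdFinEquiv.symm k).1).1 (finProdFinEquiv.symm (finProdFinEquiv.symm k).1).2
    (finProdFinEquiv.symm k).2 : ZMod p), ?_⟩
  funext c v i
  show ∑ j, ct v ((a (finProdFinEquiv.symm (finProdFinEquiv.symm (finProdFinEquiv (finProdFinEquiv (c, i), j))).1).1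
    (finProdFinEquiv.symm (finProdFinEquiv.symm (finProdFinEquiv (finProdFinEquiv (c, i), j))).1).2
    (finProdFinEquiv.symm (finProdFinEquiv (finProdFinEquiv (c, i), j))).2 : ZMod p)) * rh v.1 (ω j) = x c v i
  simp only [Equiv.symm_apply_apply]
  rw [← hr c i v, ← ha c i, map_sum]
  refine sum_congr rfl fun j _ => ?_
  rw [map_intCast, map_zsmul, zsmul_eq_mul]

lemma th_cf {g N D : ℕ} (ω : Fin g → 𝓞 K) (p : ℕ) [hp : Fact p.Prime] (m : Fin (N * D * g) → ℕ) (c : Fin N) (v : Vp K p) (i : Fin D) :
    Th (N := N) (D := D) ω p (fun k => (m k : ZMod p)) c v i = rh v.1 (Pool.Agent.N842.HS.cf ω m (finProdFinEquiv (c, i))) := by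
  show ∑ j, ct v ((m (finProdFinEquiv (finProdFinEquiv (c, i), j)) : ZMod p)) * rh v.1 (ω j) = _
  unfold Pool.Agent.N842.HS.cf
  rw [map_sum]
  refine sum_congr rfl fun j _ => ?_
  rw [map_natCast, map_mul, map_natCast]

/-- the local means as means over the residue fields -/
lemma mean_th {g N D : ℕ} (ω : Fin g → 𝓞 K) (hω : Submodule.span ℤ (Set.range ω) = ⊤) (p : ℕ) [hp : Fact p.Prime]
    (G : (Fin N → (v : Vp K p) → Fin D → Rs v.1) → ℝ) :
    mean (N * D * g) p (fun m => G (Th ω p (fun k => (m k : ZMod p)))) = am G := by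
  classical
  rw [Pool.Agent.N842.ST.mean_eq_av p (fun u : Fin (N * D * g) → ZMod p => G (Th ω p u))]
  have h3 := Pool.Agent.Y57.FD.Mom.mean_hom (Th (N := N) (D := D) ω p) (th_surj ω hω p) G
  unfold Pool.Agent.N842.ST.av am
  rw [Fintype.card_fun, Fintype.card_fin, ZMod.card] at h3
  push_cast at h3
  exact h3

/-- means of products -/
lemma am_prod {N : ℕ} {Ω : Type} [Fintype Ω] (G : Fin N → Ω → ℝ) : am (fun x : Fin N → Ω => ∏ c, G c (x c)) = ∏ c, am (G c) := by
  classical
  unfold am
  rw [prod_div_distrib, prod_const, card_univ, Fintype.card_fin, Fintype.card_fun, Fintype.card_fin]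
  push_cast
  congr 1
  rw [← Finset.sum_prod_piFinset, Fintype.piFinset_univ]

end

end Pool.Agent.N842.SQ
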