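import Pool.Agent.N842.HS.Prm
import Pool.Agent.N842.SQ.Hom
import Pool.Agent.N842.SQ.Sum

/-!
# The prime ideals above a prime number
-/

set_option autoImplicit false

namespace Pool.Agent.N842.SQ

open Finset NumberField IsDedekindDomain

section
variable (K : Type) [Field K] [NumberField K]

/-- the prime ideals above `p` -/
abbrev Vp (p : ℕ) : Type := {v : HeightOneSpectrum (𝓞 K) // (p : 𝓞 K) ∈ v.asIdeal}

lemma vp_finite (p : ℕ) (hp : p.Prime) : Finite (Vp K p) := by
  by_contra hcon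
  have h1 : {v : HeightOneSpectrum (𝓞 K) | (p : 𝓞 K) ∈ v.asIdeal}.Infinite := fun hf => hcon hf.to_subtype
  obtain ⟨t, ht1, ht2⟩ := h1.exists_subset_card_eq (Module.finrank ℤ (𝓞 K) + 1)
  have := Pool.Agent.N842.HS.prime_above K p hp t (fun v hv => ht1 hv)
  omega

instance vpFinite (p : ℕ) [hp : Fact p.Prime] : Finite (Vp K p) := vp_finite K p hp.out

/-- the finite type structure -/
@[reducible] noncomputable def vpFin (p : ℕ) [hp : Fact p.Prime] : Fintype (Vp K p) := Fintype.ofFinite _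

attribute [local instance] vpFin

lemma vp_card (p : ℕ) [hp : Fact p.Prime] : (univ : Finset (Vp K p)).card ≤ Module.finrank ℤ (𝓞 K) := by
  have h := Pool.Agent.N842.HS.prime_above K p hp.out ((univ : Finset (Vp K p)).map ⟨Subtype.val, Subtype.val_injective⟩) (fun v hv => by
    rw [mem_map] at hv
    obtain ⟨w, _, rfl⟩ := hv
    exact w.2)
  rwa [card_map] at h

variable {K}

/-- the residue field -/
def Rs (v : HeightOneSpectrum (𝓞 K)) : Type := 𝓞 K ⧸ v.asIdeal

noncomputable instance rsField (v : HeightOneSpectrum (𝓞 K)) : Field (Rs v) :=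
  haveI : v.asIdeal.IsMaximal := v.isMaximal
  Ideal.Quotient.field v.asIdeal

instance rsFinite (v : HeightOneSpectrum (𝓞 K)) : Finite (Rs v) := Ideal.finiteQuotientOfFreeOfNeBot _ v.ne_bot

/-- the finite type structure -/
@[reducible] noncomputable def rsFin (v : HeightOneSpectrum (𝓞 K)) : Fintype (Rs v) := Fintype.ofFinite _

attribute [local instance] rsFin

/-- the reduction -/
noncomputable def rh (v : HeightOneSpectrum (𝓞 K)) : 𝓞 K →+* Rs v := Ideal.Quotient.mk v.asIdeal

lemma rh_surj (v : HeightOneSpectrum (𝓞 K)) : Function.Surjective (rh v) := Ideal.Quotient.mk_surjective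

lemma rh_ker (v : HeightOneSpectrum (𝓞 K)) (a : 𝓞 K) : rh v a = 0 ↔ a ∈ v.asIdeal := Ideal.Quotient.eq_zero_iff_mem

instance rsChar (p : ℕ) [hp : Fact p.Prime] (v : Vp K p) : CharP (Rs v.1) p := by
  obtain ⟨q, hq⟩ := CharP.exists (Rs v.1)
  have h1 : q.Prime := CharP.char_is_prime (Rs v.1) q
  have h2 : ((p : ℕ) : Rs v.1) = 0 := by
    rw [← map_natCast (rh v.1)]
    exact (rh_ker v.1 _).2 v.2
  have h3 : q ∣ p := (CharP.cast_eq_zero_iff (Rs v.1) q p).1 h2
  have h4 : q = p := (Nat.prime_dvd_prime_iff_eq h1 hp.out).1 h3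
  rw [h4] at hq
  exact hq

/-- the residue degree -/
noncomputable def dv (p : ℕ) (v : HeightOneSpectrum (𝓞 K)) : ℕ := dg p (Rs v)

lemma card_rs (p : ℕ) [hp : Fact p.Prime] (v : Vp K p) : Fintype.card (Rs v.1) = p ^ dv p v.1 ∧ 1 ≤ dv p v.1 := card_dg p (Rs v.1)

lemma dv_le (p : ℕ) [hp : Fact p.Prime] (v : Vp K p) : dv p v.1 ≤ Module.finrank ℤ (𝓞 K) := by
  have h1 : Ideal.absNorm v.1.asIdeal = p ^ dv p v.1 := by
    rw [Pool.Agent.N842.HS.norm_card, ← (card_rs p v).1, ← Nat.card_eq_fintype_card]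
    rfl
  have h2 : Ideal.absNorm v.1.asIdeal ∣ Ideal.absNorm (Ideal.span {(p : 𝓞 K)}) := by
    apply Ideal.absNorm_dvd_absNorm_of_le
    rw [Ideal.span_singleton_le_iff_mem]
    exact v.2
  have h3 : Ideal.absNorm (Ideal.span {(p : 𝓞 K)}) = p ^ Module.finrank ℤ (𝓞 K) := by
    rw [Ideal.absNorm_span_singleton, ← map_natCast (algebraMap ℤ (𝓞 K)) p, Algebra.norm_algebraMap, Int.natAbs_pow, Int.natAbs_natCast]
  rw [h1, h3] at h2
  exact (Nat.pow_dvd_pow_iff_le_right hp.out.one_lt).1 h2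

/-- the homomorphisms to a field of characteristic `p` -/
lemma hom_bij (p : ℕ) [hp : Fact p.Prime] (L : Type) [Field L] [CharP L p] :
    Function.Bijective (fun x : (v : Vp K p) × (Rs v.1 →+* L) => x.2.comp (rh x.1.1)) := by
  constructor
  · rintro ⟨v, ψ⟩ ⟨w, χ⟩ h
    dsimp only at h
    have h1 : v = w := by
      apply Subtype.ext
      apply HeightOneSpectrum.ext
      ext a
      rw [← rh_ker, ← rh_ker, ← map_eq_zero ψ, ← map_eq_zero χ]
      have := RingHom.congr_fun h a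
      rw [RingHom.comp_apply, RingHom.comp_apply] at this
      rw [this]
    subst h1
    congr 1
    apply RingHom.ext
    intro y
    obtain ⟨a, rfl⟩ := rh_surj v.1 y
    exact RingHom.congr_fun h a
  · intro φ
    have hpm : (p : 𝓞 K) ∈ RingHom.ker φ := by
      rw [RingHom.mem_ker, map_natCast]
      exact CharP.cast_eq_zero L p
    let v : HeightOneSpectrum (𝓞 K) :=
      { asIdeal := RingHom.ker φ
        isPrime := RingHom.ker_isPrime φ
        ne_bot := by
          intro h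
          rw [h, Ideal.mem_bot] at hpm
          exact hp.out.ne_zero (by exact_mod_cast hpm) }
    refine ⟨⟨⟨v, hpm⟩, RingHom.kerLift φ⟩, ?_⟩
    apply RingHom.ext
    intro a
    exact RingHom.kerLift_mk φ a

instance homFinite (p : ℕ) [hp : Fact p.Prime] (L : Type) [Field L] [Finite L] [CharP L p] : Finite (𝓞 K →+* L) := by
  have : ∀ v : Vp K p, Finite (Rs v.1 →+* L) := fun v => DFunLike.finite _
  exact Finite.of_surjective _ (hom_bij (K := K) p L).2

/-- the sums over the homomorphisms -/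
lemma sum_hom (p : ℕ) [hp : Fact p.Prime] (L : Type) [Field L] [Fintype L] [CharP L p] (F : (𝓞 K →+* L) → ℝ) (G : Vp K p → ℝ)
    (h : ∀ (v : Vp K p) (ψ : Rs v.1 →+* L), F (ψ.comp (rh v.1)) = G v) :
    ∑ᶠ φ : 𝓞 K →+* L, F φ = ∑ v : Vp K p, (if dv p v.1 ∣ dg p L then (dv p v.1 : ℝ) * G v else 0) := by
  classical
  have h0 : ∀ v : Vp K p, Finite (Rs v.1 →+* L) := fun v => DFunLike.finite _
  have h1 : ∀ v : Vp K p, Nonempty (Fintype (Rs v.1 →+* L)) := fun v => ⟨Fintype.ofFinite _⟩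
  have h2 : ∀ v : Vp K p, Fintype (Rs v.1 →+* L) := fun v => (h1 v).some
  rw [← finsum_eq_of_bijective (fun x : (v : Vp K p) × (Rs v.1 →+* L) => x.2.comp (rh x.1.1)) (hom_bij (K := K) p L)
    (f := fun x : (v : Vp K p) × (Rs v.1 →+* L) => G x.1) (g := F) (fun x => (h x.1 x.2).symm)]
  rw [finsum_eq_sum_of_fintype, Fintype.sum_sigma]
  refine sum_congr rfl fun v _ => ?_
  dsimp only
  rw [sum_const, card_univ, nsmul_eq_mul, ← Nat.card_eq_fintype_card, hom_count p (Rs v.1) L]
  unfold dv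
  split_ifs with h3
  · rfl
  · rw [Nat.cast_zero, zero_mul]

end

end Pool.Agent.N842.SQ
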