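import Pool.Agent.N842.SQ.Loc2

/-!
# Almost all Weil restrictions
-/

set_option autoImplicit false

namespace Pool.Agent.N842.SQ

open Pool.Agent.N842.ST
open Finset NumberField IsDedekindDomain
open Pool.Agent.TH894.NE (mean box mem_box)
open Pool.Agent.TH894.NF (pr pr_prime)
open Pool.Agent.Y57.FD (digit exceptions)

attribute [local instance] rsFin vpFin vpDec gfFin

section
variable {K : Type} [Field K] [NumberField K]

/-- the local functions for all numbers -/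
noncomputable def FF {g : ℕ} (ω : Fin g → 𝓞 K) (l D N : ℕ) (q : Fin N → Fin D → ℕ) (p : ℕ) (m : Fin (N * D * g) → ℕ) : ℝ :=
  if h : p.Prime then
    haveI : Fact p.Prime := ⟨h⟩
    HF l D N p q (Pool.Agent.N842.HS.cf ω m)
  else 0

variable (K) in
/-- the main values for all numbers -/
noncomputable def MM (l D N : ℕ) (q : Fin N → Fin D → ℕ) (p : ℕ) : ℝ :=
  if h : p.Prime then
    haveI : Fact p.Prime := ⟨h⟩
    HM K l D N p q
  else 0

omit [NumberField K] in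
lemma FF_eq {g : ℕ} (ω : Fin g → 𝓞 K) (l D N : ℕ) (q : Fin N → Fin D → ℕ) (p : ℕ) [hp : Fact p.Prime] (m : Fin (N * D * g) → ℕ) :
    FF ω l D N q p m = HF l D N p q (Pool.Agent.N842.HS.cf ω m) := by
  unfold FF
  rw [dif_pos hp.out]

omit [NumberField K] in
lemma MM_eq (l D N : ℕ) (q : Fin N → Fin D → ℕ) (p : ℕ) [hp : Fact p.Prime] : MM K l D N q p = HM K l D N p q := by
  unfold MM
  rw [dif_pos hp.out]

/-- **almost all products of Weil restrictions** -/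
theorem genW (K : Type) [Field K] [NumberField K] (b g l D N s : ℕ) (ω : Fin g → 𝓞 K) (hω : Submodule.span ℤ (Set.range ω) = ⊤)
    (hl : l.Prime) (hD : Nat.Coprime D l) (hb : 2 ≤ b) (hd : 1 ≤ N * D * g) (hs : 1 ≤ s) (δ : ℝ) (hδ : 0 < δ) (A B : ℕ) :
    ∃ c : ℝ, 0 < c ∧ ∃ y₀ : ℕ, ∀ (L r : Fin (N * D * g) → ℕ) (y : ℕ), (∀ i, 2 * r i ≤ L i) → y₀ ≤ y →
    ∀ N' : Fin (N * D * g) → ℕ, (∀ i, N' i < b ^ L i) →
    ∀ f : Fin (N * D * g) → ℕ → ℕ, (∀ i j, f i j < b ∧ f i j ≠ digit b j (N' i)) →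
    ∀ W : ℕ → Set (ℕ → ℝ), (∀ x, (W x).Finite ∧ (W x).ncard ≤ x ^ B) → (∀ x, ∀ w ∈ W x, ∀ k, |w k| ≤ 1) →
    ∀ E : (Fin (N * D * g) → ℕ) → Prop,
    (∀ m : Fin (N * D * g) → ℕ, (∀ x : ℕ, y ≤ x → (∀ i, (x : ℝ) ≤ Real.exp (c * r i)) → ∀ w ∈ W x,
      ∀ q : Fin s → Fin N → Fin D → ℕ, (∀ e c, ∑ k : Fin D, ((k : ℕ) + 1) * q e c k ≤ D) →
      |∑ k ∈ range x, w k * ∏ e : Fin s, FF ω l D N (q e) (pr (k + e)) m - ∑ k ∈ range x, w k * ∏ e : Fin s, MM K l D N (q e) (pr (k + e))| ≤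
        Real.sqrt (max 1 (∑ k ∈ range x, w k ^ 2)) * (x : ℝ) ^ δ) → E m) →
    (exceptions b L r N' f E : ℝ) ≤ 1 / (y : ℝ) ^ A * ∏ i, ((L i).choose (r i) : ℝ) := by
  classical
  -- the admissible exponents
  obtain ⟨Q, hQ⟩ : ∃ Q : Finset (Fin N → Fin D → ℕ), Q = (Fintype.piFinset (fun _ : Fin N => Fintype.piFinset (fun _ : Fin D => range (D + 1)))).filter
    (fun q => ∀ c, ∑ k : Fin D, ((k : ℕ) + 1) * q c k ≤ D) := ⟨_, rfl⟩
  have hQm : ∀ q : Fin N → Fin D → ℕ, q ∈ Q ↔ ∀ c, ∑ k : Fin D, ((k : ℕ) + 1) * q c k ≤ D := by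
    intro q
    rw [hQ, mem_filter]
    constructor
    · exact fun h => h.2
    · intro h
      refine ⟨?_, h⟩
      rw [Fintype.mem_piFinset]
      intro c
      rw [Fintype.mem_piFinset]
      intro k
      rw [mem_range]
      have h2 : ((k : ℕ) + 1) * q c k ≤ ∑ k : Fin D, ((k : ℕ) + 1) * q c k :=
        single_le_sum (f := fun k : Fin D => ((k : ℕ) + 1) * q c k) (fun k _ => Nat.zero_le _) (mem_univ k)
      have h3 : q c k ≤ ((k : ℕ) + 1) * q c k := Nat.le_mul_of_pos_left _ (by omega)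
      have := h c
      omega
  obtain ⟨L₀, hL₀⟩ : ∃ L₀ : ℝ, L₀ = Module.finrank ℤ (𝓞 K) * BB K l D := ⟨_, rfl⟩
  have hBB := (BB_ge (K := K) l hl D).1
  have hL₀0 : 0 ≤ L₀ := by
    rw [hL₀]
    have : 0 ≤ BB K l D := by linarith
    positivity
  have hsη : ∀ x : ℕ, (x : ℝ) ^ ((s : ℝ) * 0 + δ) = (x : ℝ) ^ δ := fun x => by rw [mul_zero, zero_add]
  obtain ⟨c, hc, y₀, h⟩ := Pool.Agent.N842.HS.genp b (N * D * g) s hb hd hs δ hδ A B Q (fun q p m => FF ω l D N q p m)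
    (fun q p => MM K l D N q p) 0 le_rfl
    (fun q _ p hp m => by
      have : Fact p.Prime := ⟨hp⟩
      rw [FF_eq, FF_eq, HF_eq, HF_eq]
      simp only [ZMod.natCast_mod])
    (fun q _ => by
      refine ⟨(∏ e : Fin N, ∏ k : Fin D, L₀ ^ q e k) + ∏ e : Fin N, ∏ k : Fin D, nm L₀ L₀ (q e k), fun p hp => ?_⟩
      have : Fact p.Prime := ⟨hp⟩
      have a1 : 0 ≤ ∏ e : Fin N, ∏ k : Fin D, L₀ ^ q e k := prod_nonneg fun e _ => prod_nonneg fun k _ => pow_nonneg hL₀0 _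
      have a2 : 0 ≤ ∏ e : Fin N, ∏ k : Fin D, nm L₀ L₀ (q e k) := prod_nonneg fun e _ => prod_nonneg fun k _ => nm_nonneg _ _ hL₀0 hL₀0 _
      rw [Real.rpow_zero, mul_one]
      constructor
      · intro m
        rw [FF_eq, HF_eq]
        refine le_trans ?_ (le_add_of_nonneg_right a2)
        unfold GF
        rw [abs_prod]
        refine prod_le_prod (fun e _ => abs_nonneg _) fun e _ => ?_
        rw [hL₀]
        exact g1_le l hl D hD p (q e) _
      · rw [MM_eq]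
        refine le_trans ?_ (le_add_of_nonneg_left a1)
        unfold HM
        rw [abs_prod]
        refine prod_le_prod (fun e _ => abs_nonneg _) fun e _ => ?_
        rw [hL₀]
        exact h1_le l hl D p (q e))
    (fun q hq => by
      obtain ⟨C, hC0, hC⟩ := loc_all K l hl D hD N q ((hQm q).1 hq)
      refine ⟨C, hC0, fun p hp => ?_⟩
      have : Fact p.Prime := ⟨hp⟩
      have e1 : (FF ω l D N q p) = fun m => GF (K := K) l D N p q (Th (K := K) (N := N) (D := D) ω p (fun k => (m k : ZMod p))) := by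
        funext m
        rw [FF_eq, HF_eq]
      rw [MM_eq, e1, mean_th ω hω p (GF (K := K) l D N p q)]
      exact hC p)
  refine ⟨c, hc, y₀, fun L r y hrL hy N' hN' f hf W hW hW1 E hE => ?_⟩
  refine h L r y hrL hy N' hN' f hf W hW hW1 E fun m hm => hE m fun x hyx hxr w hw q hq => ?_
  have h1 := hm x hyx hxr w hw q (fun e => (hQm _).2 (hq e))
  rw [hsη] at h1
  exact h1

end

end Pool.Agent.N842.SQ
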